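import Pool.Agent.Lib.MP_3e612f_nt.LO.D.Defs
import Pool.Agent.Lib.MP_3e612f_nt.MR.Main

/-! From `MR.mr` to the hypothesis `MRp` of the digit part. -/

set_option autoImplicit false

namespace Pool.Agent.Lib.MP_3e612f_nt.LOD

open Finset
open Pool.Agent.Lib.MP_3e612f_nt.PI (mc)

theorem mrp : MRp := by
  intro Q hQ ε hε
  have : NeZero Q := ⟨by omega⟩
  obtain ⟨h0, H⟩ := MR.mr Q ε hε
  refine ⟨h0, fun h hh => ?_⟩
  obtain ⟨X0, H1⟩ := H h hh
  refine ⟨X0, fun X hX a ha => ?_⟩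
  refine le_trans (le_of_eq (Finset.sum_congr rfl fun x _ => ?_)) (H1 X hX ((a : ℕ) : ZMod Q))
  have e : ∑ k ∈ (range h).filter (fun k => (x + k) % Q = a), mc (x + k) =
      ((∑ n ∈ range h, (if (((x + n : ℕ)) : ZMod Q) = ((a : ℕ) : ZMod Q) then MR.mu (x + n) else 0) : ℝ) : ℂ) := by
    rw [Finset.sum_filter, Complex.ofReal_sum]
    refine Finset.sum_congr rfl fun n _ => ?_
    have h1 : (((x + n : ℕ)) : ZMod Q) = ((a : ℕ) : ZMod Q) ↔ (x + n) % Q = a := by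
      rw [ZMod.natCast_eq_natCast_iff', Nat.mod_eq_of_lt ha]
    by_cases h2 : (x + n) % Q = a
    · rw [if_pos h2, if_pos (h1.2 h2)]
      simp [mc, MR.mu]
    · rw [if_neg h2, if_neg (fun h => h2 (h1.1 h))]
      simp
  rw [e, Complex.norm_real, Real.norm_eq_abs]

end Pool.Agent.Lib.MP_3e612f_nt.LOD
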