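import Pool.Agent.Lib.MP_3e612f_nt.LO.D.Defs
import Pool.Agent.Lib.MP_3e612f_nt.PI.Kat

/-!
The base of the local theorem: frozen factors alone, from the theorem in residue classes.

PROOF of `lbase`. Scales `e 0 < e 1 < ... < e (B + 1)`, with `e (j + 1)` much larger than `e j`. For a frozen
factor `β` with at most `B` positions there is a `j ≤ B` without positions in `[e j, e (j + 1))`. Let
`Q = m q ^ (e j)`, `E = q ^ (e (j + 1))`, `H` an intermediate length. Then
`∑_{n < h} g n = (1/H) ∑_{n < h} ∑_{k < H} g (n + k) + O(H)`, and if `[n + s, n + s + H)` is inside an interval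
`[u E, (u + 1) E)`, then `β` is there a function of the residue class modulo `Q`, so the inner sum is at most
`∑_{a < Q} |∑_{k < H, x + n + k = a (Q)} μ (x + n + k)|`.
-/

set_option autoImplicit false

namespace Pool.Agent.Lib.MP_3e612f_nt.LOD

open Finset
open Pool.Agent.Lib.MP_3e612f_nt.PI (ee mc)
open Pool.Agent.Lib.MP_3e612f_nt.EM

theorem base_norm_mc (n : ℕ) : ‖mc n‖ ≤ 1 := by
  unfold mc
  rw [Complex.norm_intCast]
  exact_mod_cast ArithmeticFunction.abs_moebius_le_one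

/-- averaging over short intervals -/
theorem base_avg (g : ℕ → ℂ) (hg : ∀ n, ‖g n‖ ≤ 1) (h : ℕ) {H : ℕ} (hH : 1 ≤ H) :
    ‖∑ n ∈ range h, g n‖ ≤ (∑ n ∈ range h, ‖∑ k ∈ range H, g (n + k)‖) / H + 2 * H := by
  have hHr : (0 : ℝ) < H := by exact_mod_cast hH
  have h1 : ∀ k, ‖∑ n ∈ range h, g n - ∑ n ∈ range h, g (n + k)‖ ≤ 2 * k := by
    intro k
    have e1 : ∑ n ∈ range (h + k), g n = ∑ n ∈ range h, g n + ∑ i ∈ range k, g (h + i) :=
      Finset.sum_range_add _ _ _
    have e2 : ∑ n ∈ range (k + h), g n = ∑ n ∈ range k, g n + ∑ i ∈ range h, g (k + i) :=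
      Finset.sum_range_add _ _ _
    have e3 : ∑ i ∈ range h, g (k + i) = ∑ n ∈ range h, g (n + k) :=
      Finset.sum_congr rfl fun n _ => by rw [add_comm]
    rw [add_comm k h, e1, e3] at e2
    have e4 : ∑ n ∈ range h, g n - ∑ n ∈ range h, g (n + k) =
        ∑ n ∈ range k, g n - ∑ i ∈ range k, g (h + i) := by
      linear_combination e2
    rw [e4]
    have hk : ∀ u : ℕ → ℂ, (∀ n, ‖u n‖ ≤ 1) → ‖∑ n ∈ range k, u n‖ ≤ k := by
      intro u hu
      refine (norm_sum_le _ _).trans ((Finset.sum_le_card_nsmul _ _ 1 fun n _ => hu n).trans ?_)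
      rw [card_range, nsmul_eq_mul, mul_one]
    refine (norm_sub_le _ _).trans ?_
    linarith [hk g hg, hk (fun i => g (h + i)) fun n => hg _]
  have h2 : (H : ℂ) * ∑ n ∈ range h, g n = ∑ n ∈ range h, ∑ k ∈ range H, g (n + k) +
      ∑ k ∈ range H, (∑ n ∈ range h, g n - ∑ n ∈ range h, g (n + k)) := by
    rw [Finset.sum_sub_distrib, Finset.sum_const, card_range, nsmul_eq_mul, Finset.sum_comm]
    ring
  have h3 : (H : ℝ) * ‖∑ n ∈ range h, g n‖ ≤
      (∑ n ∈ range h, ‖∑ k ∈ range H, g (n + k)‖) + H * (2 * H) := by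
    have h4 : (H : ℝ) * ‖∑ n ∈ range h, g n‖ = ‖(H : ℂ) * ∑ n ∈ range h, g n‖ := by
      rw [norm_mul, Complex.norm_natCast]
    rw [h4, h2]
    refine (norm_add_le _ _).trans (add_le_add (norm_sum_le _ _) ?_)
    refine (norm_sum_le _ _).trans ((Finset.sum_le_card_nsmul _ _ (2 * (H : ℝ)) ?_).trans ?_)
    · intro k hk
      refine (h1 k).trans ?_
      have : (k : ℝ) ≤ H := by exact_mod_cast (mem_range.1 hk).le
      linarith
    · rw [card_range, nsmul_eq_mul]
  rw [← sub_le_iff_le_add, le_div_iff₀ hHr]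
  nlinarith

/-- a frozen factor on an interval inside a block of length `q ^ e'` is a function of the residue class
modulo `m q ^ e` -/
theorem base_frozen {q m e e' : ℕ} (hq : 2 ≤ q) {I : Finset ℕ} {β : ℕ → ℂ} (hβ : DepL q m I β)
    (hI : ∀ i ∈ I, i < e ∨ e' ≤ i) {N H : ℕ} (hN : N % q ^ e' + H ≤ q ^ e') {k k' : ℕ} (hk : k < H)
    (hk' : k' < H) (h : (N + k) % (m * q ^ e) = (N + k') % (m * q ^ e)) : β (N + k) = β (N + k') := by
  have hq0 : 0 < q := by omega
  refine hβ _ _ fun i hi => ?_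
  rcases hI i hi with h1 | h1
  · have h2 : q ^ i * m ∣ m * q ^ e := by
      rw [mul_comm (q ^ i) m]
      exact Nat.mul_dvd_mul_left m (pow_dvd_pow q h1.le)
    have h3 : ∀ x, x / q ^ i % m = x % (m * q ^ e) % (q ^ i * m) / q ^ i := by
      intro x
      rw [Nat.mod_mod_of_dvd _ h2, Nat.mod_mul_right_div_self]
    rw [h3, h3 (N + k'), h]
  · obtain ⟨c, rfl⟩ := Nat.exists_eq_add_of_le h1
    have hE : 0 < q ^ e' := Nat.pow_pos hq0
    have h2 : ∀ j, j < H → (N + j) / q ^ e' = N / q ^ e' := by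
      intro j hj
      have h3 := Nat.mod_add_div N (q ^ e')
      have h4 : N + j = (N % q ^ e' + j) + q ^ e' * (N / q ^ e') := by omega
      rw [h4, Nat.add_mul_div_left _ _ hE, Nat.div_eq_of_lt (by omega), Nat.zero_add]
    rw [pow_add, ← Nat.div_div_eq_div_mul, ← Nat.div_div_eq_div_mul, h2 k hk, h2 k' hk']

/-- the sum over one short interval -/
theorem base_short {Q : ℕ} (hQ : 1 ≤ Q) (y N H : ℕ) (β : ℕ → ℂ) (hb : ∀ n, ‖β n‖ ≤ 1)
    (hβ : ∀ k k', k < H → k' < H → (N + k) % Q = (N + k') % Q → β (N + k) = β (N + k')) :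
    ‖∑ k ∈ range H, mc (y + k) * β (N + k)‖ ≤
      ∑ a ∈ range Q, ‖∑ k ∈ (range H).filter (fun k => (y + k) % Q = a), mc (y + k)‖ := by
  rw [← Finset.sum_fiberwise_of_maps_to (s := range H) (t := range Q)
    (g := fun k => (y + k) % Q) (fun k _ => mem_range.2 (Nat.mod_lt _ hQ))]
  refine (norm_sum_le _ _).trans (Finset.sum_le_sum fun a _ => ?_)
  rcases ((range H).filter fun k => (y + k) % Q = a).eq_empty_or_nonempty with h0 | ⟨k0, hk0⟩
  · rw [h0, Finset.sum_empty, Finset.sum_empty]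
  · obtain ⟨h1, h2⟩ := mem_filter.1 hk0
    have h3 : ∑ k ∈ (range H).filter (fun k => (y + k) % Q = a), mc (y + k) * β (N + k) =
        (∑ k ∈ (range H).filter (fun k => (y + k) % Q = a), mc (y + k)) * β (N + k0) := by
      rw [Finset.sum_mul]
      refine Finset.sum_congr rfl fun k hk => ?_
      obtain ⟨h4, h5⟩ := mem_filter.1 hk
      rw [hβ k k0 (mem_range.1 h4) (mem_range.1 h1) ?_]
      have h6 : y + k ≡ y + k0 [MOD Q] := by
        show (y + k) % Q = (y + k0) % Q
        rw [h5, h2]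
      exact Nat.ModEq.add_left N (Nat.ModEq.add_left_cancel' y h6)
    rw [h3, norm_mul]
    exact (mul_le_mul_of_nonneg_left (hb _) (norm_nonneg _)).trans (le_of_eq (mul_one _))

/-- the number of starting points of intervals which are not inside a block -/
theorem base_count {E : ℕ} (hE : 0 < E) (h s H : ℕ) :
    ((range h).filter fun n => ¬ ((n + s) % E + H ≤ E)).card ≤ H * (h / E + 2) := by
  classical
  have h1 : ((range h).filter fun n => ¬ ((n + s) % E + H ≤ E)) ⊆
      (Ico (E - H) E).biUnion fun r => (range h).filter fun n => (n + s) % E = r := by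
    intro n hn
    obtain ⟨h2, h3⟩ := mem_filter.1 hn
    have h4 : (n + s) % E < E := Nat.mod_lt _ hE
    rw [mem_biUnion]
    exact ⟨(n + s) % E, mem_Ico.2 ⟨by omega, h4⟩, mem_filter.2 ⟨h2, rfl⟩⟩
  refine (card_le_card h1).trans ((card_biUnion_le_card_mul _ _ (h / E + 2) fun r _ => ?_).trans ?_)
  · have h2 : ((range h).filter fun n => (n + s) % E = r).card ≤
        (Icc (s / E) ((h + s) / E)).card := by
      refine Finset.card_le_card_of_injOn (fun n => (n + s) / E) ?_ ?_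
      · intro n hn
        rw [mem_coe, mem_filter, mem_range] at hn
        rw [mem_coe, mem_Icc]
        exact ⟨Nat.div_le_div_right (Nat.le_add_left _ _), Nat.div_le_div_right (by omega)⟩
      · intro n hn n' hn' hnn
        rw [mem_coe, mem_filter] at hn hn'
        have h3 : (n + s) / E = (n' + s) / E := hnn
        have h4 := Nat.div_add_mod (n + s) E
        have h5 := Nat.div_add_mod (n' + s) E
        rw [hn.2] at h4
        rw [hn'.2] at h5
        rw [h3] at h4
        omega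
    refine h2.trans ?_
    rw [Nat.card_Icc]
    have h3 : (h + s) / E ≤ h / E + s / E + 1 := by
      rw [Nat.div_le_iff_le_mul_add_pred hE]
      have h4 := Nat.div_add_mod h E
      have h5 := Nat.div_add_mod s E
      have h6 := Nat.mod_lt h hE
      have h7 := Nat.mod_lt s hE
      have h8 : E * (h / E + s / E + 1) = E * (h / E) + E * (s / E) + E := by ring
      omega
    have h9 := Nat.zero_le (h / E)
    omega
  · rw [Nat.card_Ico]
    exact Nat.mul_le_mul_right _ (by omega)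

/-- one interval, one scale -/
theorem base_one {q m e e' : ℕ} (hq : 2 ≤ q) (hm : 1 ≤ m) {I : Finset ℕ} {β : ℕ → ℂ}
    (hb : ∀ n, ‖β n‖ ≤ 1) (hβ : DepL q m I β) (hI : ∀ i ∈ I, i < e ∨ e' ≤ i) {H : ℕ} (hH : 1 ≤ H)
    (x s h : ℕ) :
    ‖∑ n ∈ range h, mc (x + n) * β (n + s)‖ ≤
      (∑ n ∈ range h, ∑ a ∈ range (m * q ^ e),
        ‖∑ k ∈ (range H).filter (fun k => (x + n + k) % (m * q ^ e) = a), mc (x + n + k)‖) / H +
      (H * (h / (q : ℝ) ^ e' + 2) + 2 * H) := by
  have hq0 : 0 < q := by omega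
  have hE : 0 < q ^ e' := Nat.pow_pos hq0
  have hHr : (0 : ℝ) < H := by exact_mod_cast hH
  have hQ : 1 ≤ m * q ^ e := Nat.mul_pos hm (Nat.pow_pos hq0)
  have hg : ∀ n, ‖mc (x + n) * β (n + s)‖ ≤ 1 := by
    intro n
    rw [norm_mul]
    calc _ ≤ (1 : ℝ) * 1 := mul_le_mul (base_norm_mc _) (hb _) (norm_nonneg _) zero_le_one
      _ = 1 := one_mul _
  refine (base_avg (fun n => mc (x + n) * β (n + s)) hg h hH).trans ?_
  rw [← add_assoc]
  refine add_le_add_left ?_ _
  have h1 : ∀ n, ‖∑ k ∈ range H, mc (x + (n + k)) * β (n + k + s)‖ ≤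
      (∑ a ∈ range (m * q ^ e),
        ‖∑ k ∈ (range H).filter (fun k => (x + n + k) % (m * q ^ e) = a), mc (x + n + k)‖) +
      if ¬ ((n + s) % q ^ e' + H ≤ q ^ e') then (H : ℝ) else 0 := by
    intro n
    by_cases hn : (n + s) % q ^ e' + H ≤ q ^ e'
    · rw [if_neg (not_not.2 hn), add_zero]
      have h2 := base_short hQ (x + n) (n + s) H β hb fun k k' hk hk' hkk =>
        base_frozen hq hβ hI hn hk hk' hkk
      refine le_trans (le_of_eq ?_) h2
      congr 1
      refine Finset.sum_congr rfl fun k _ => ?_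
      rw [← add_assoc, add_right_comm n k s]
    · rw [if_pos hn]
      have h2 : ‖∑ k ∈ range H, mc (x + (n + k)) * β (n + k + s)‖ ≤ H := by
        refine (norm_sum_le _ _).trans ((Finset.sum_le_card_nsmul _ _ 1 fun k _ => hg _).trans ?_)
        rw [card_range, nsmul_eq_mul, mul_one]
      have h3 : (0 : ℝ) ≤ ∑ a ∈ range (m * q ^ e),
        ‖∑ k ∈ (range H).filter (fun k => (x + n + k) % (m * q ^ e) = a), mc (x + n + k)‖ :=
        Finset.sum_nonneg fun _ _ => norm_nonneg _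
      linarith
  have h2 := Finset.sum_le_sum fun n (_ : n ∈ range h) => h1 n
  rw [Finset.sum_add_distrib, ← Finset.sum_filter, Finset.sum_const, nsmul_eq_mul] at h2
  have h3 := base_count hE h s H
  have h4 : ((((range h).filter fun n => ¬ ((n + s) % q ^ e' + H ≤ q ^ e')).card : ℕ) : ℝ) ≤
      H * (h / (q : ℝ) ^ e' + 2) := by
    have h5 : (((h / q ^ e' : ℕ)) : ℝ) ≤ h / (q : ℝ) ^ e' := by
      have := @Nat.cast_div_le ℝ _ _ _ h (q ^ e')
      push_cast at this
      exact this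
    calc ((((range h).filter fun n => ¬ ((n + s) % q ^ e' + H ≤ q ^ e')).card : ℕ) : ℝ)
        ≤ ((H * (h / q ^ e' + 2) : ℕ) : ℝ) := by exact_mod_cast h3
      _ = H * (((h / q ^ e' : ℕ) : ℝ) + 2) := by push_cast; ring
      _ ≤ _ := mul_le_mul_of_nonneg_left (by linarith) hHr.le
  rw [div_add' _ _ _ hHr.ne', div_le_div_iff_of_pos_right hHr]
  refine h2.trans ?_
  have h5 := mul_le_mul_of_nonneg_right h4 hHr.le
  linarith

/-- a gap without frozen positions -/
theorem base_gap {I : Finset ℕ} {B : ℕ} (hI : I.card ≤ B) (e : ℕ → ℕ) (he : Monotone e) :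
    ∃ j ≤ B, ∀ i ∈ I, i < e j ∨ e (j + 1) ≤ i := by
  by_contra hcon
  push Not at hcon
  choose! f hf using hcon
  have h1 : (range (B + 1)).card ≤ I.card := by
    refine Finset.card_le_card_of_injOn f ?_ ?_
    · intro j hj
      exact (hf j (by
        have := mem_range.1 (mem_coe.1 hj)
        omega)).1
    · intro j hj j' hj' hjj
      have h2 := hf j (by
        have := mem_range.1 (mem_coe.1 hj)
        omega)
      have h3 := hf j' (by
        have := mem_range.1 (mem_coe.1 hj')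
        omega)
      by_contra hne
      rcases Nat.lt_or_gt_of_ne hne with h4 | h4
      · have h5 := he (show j + 1 ≤ j' from h4)
        omega
      · have h5 := he (show j' + 1 ≤ j from h4)
        omega
  rw [card_range] at h1
  omega

/-- the values at shifted places -/
theorem base_shift (R : ℕ → ℝ) (hR : ∀ y, 0 ≤ R y) {X h n : ℕ} (hn : n < h) :
    ∑ x ∈ range X, R (x + n) ≤ ∑ y ∈ range (X + h), R y := by
  rw [← Finset.sum_image (f := R) (s := range X) (g := fun x => x + n)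
    (fun x _ y _ hxy => by
      have : x + n = y + n := hxy
      omega)]
  refine Finset.sum_le_sum_of_subset_of_nonneg ?_ fun y _ _ => hR y
  intro y hy
  obtain ⟨x, hx, rfl⟩ := mem_image.1 hy
  have := mem_range.1 hx
  rw [mem_range]
  omega

/-- **the base of the local theorem** -/
theorem lbase {q : ℕ} (hq : 2 ≤ q) (hMR : MRp) : LPO q 0 := by
  intro T M B _ hT ε hε
  have hq0 : 0 < q := by omega
  obtain ⟨m, hmdef⟩ : ∃ m, m = q * T := ⟨_, rfl⟩
  have hm : 1 ≤ m := by
    rw [hmdef]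
    exact Nat.mul_pos hq0 hT
  have hQ : ∀ e, 1 ≤ m * q ^ e := fun e => Nat.mul_pos hm (Nat.pow_pos hq0)
  have hQr : ∀ e, (0 : ℝ) < ((m * q ^ e : ℕ) : ℝ) := fun e => by exact_mod_cast hQ e
  have hB0 : (0 : ℝ) < (B : ℝ) + 1 := by positivity
  have hMR' : ∀ e : ℕ, ∃ H : ℕ, 1 ≤ H ∧ ∃ X0 : ℕ, ∀ X ≥ X0, ∀ a < m * q ^ e,
      ∑ y ∈ range X, ‖∑ k ∈ (range H).filter (fun k => (y + k) % (m * q ^ e) = a), mc (y + k)‖ ≤
        ε / (8 * ((B : ℝ) + 1) * ((m * q ^ e : ℕ) : ℝ)) * H * X := by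
    intro e
    have h8 : 0 < ε / (8 * ((B : ℝ) + 1) * ((m * q ^ e : ℕ) : ℝ)) := by
      have := hQr e
      positivity
    obtain ⟨H0, hH0⟩ := hMR (m * q ^ e) (hQ e) _ h8
    obtain ⟨X0, hX0⟩ := hH0 (max 1 H0) (le_max_right _ _)
    exact ⟨max 1 H0, le_max_left _ _, X0, hX0⟩
  choose Hf hHf1 Xf hXf using hMR'
  -- the scales
  let e : ℕ → ℕ := fun j => Nat.rec 0 (fun _ e => e + 1 + Hf e * ⌈8 / ε⌉₊) j
  have he : ∀ j, e (j + 1) = e j + 1 + Hf (e j) * ⌈8 / ε⌉₊ := fun _ => rfl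
  have hmono : Monotone e := monotone_nat_of_le_succ fun j => by
    rw [he]
    omega
  have hE : ∀ j, (Hf (e j) : ℝ) * (8 / ε) ≤ (q : ℝ) ^ e (j + 1) := by
    intro j
    have h1 : Hf (e j) * ⌈8 / ε⌉₊ ≤ q ^ e (j + 1) := by
      refine le_trans ?_ (Nat.lt_pow_self (by omega : 1 < q)).le
      rw [he]
      omega
    calc (Hf (e j) : ℝ) * (8 / ε) ≤ Hf (e j) * (⌈8 / ε⌉₊ : ℝ) :=
          mul_le_mul_of_nonneg_left (Nat.le_ceil _) (Nat.cast_nonneg _)
      _ = ((Hf (e j) * ⌈8 / ε⌉₊ : ℕ) : ℝ) := by push_cast; ring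
      _ ≤ ((q ^ e (j + 1) : ℕ) : ℝ) := by exact_mod_cast h1
      _ = _ := by push_cast; ring
  refine ⟨∑ j ∈ range (B + 1), ⌈16 * (Hf (e j) : ℝ) / ε⌉₊, fun h hh =>
    ⟨h + ∑ j ∈ range (B + 1), Xf (e j), fun X hX L s F hF => ?_⟩⟩
  have hh' : ∀ j ∈ range (B + 1), 16 * (Hf (e j) : ℝ) ≤ ε * h := by
    intro j hj
    have h1 : ⌈16 * (Hf (e j) : ℝ) / ε⌉₊ ≤ h :=
      (Finset.single_le_sum (f := fun j => ⌈16 * (Hf (e j) : ℝ) / ε⌉₊)
        (fun _ _ => Nat.zero_le _) hj).trans hh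
    have h2 : 16 * (Hf (e j) : ℝ) / ε ≤ h := (Nat.le_ceil _).trans (by exact_mod_cast h1)
    rw [div_le_iff₀ hε] at h2
    linarith
  have hXh : h ≤ X := by omega
  have hX' : ∀ j ∈ range (B + 1), Xf (e j) ≤ X := by
    intro j hj
    have h1 := Finset.single_le_sum (f := fun j => Xf (e j)) (fun _ _ => Nat.zero_le _) hj
    have h2 : Xf (e j) ≤ ∑ j ∈ range (B + 1), Xf (e j) := h1
    omega
  have hhr : (0 : ℝ) ≤ h := Nat.cast_nonneg h
  set R : ℕ → ℕ → ℕ → ℝ := fun j a y =>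
    ‖∑ k ∈ (range (Hf (e j))).filter (fun k => (y + k) % (m * q ^ e j) = a), mc (y + k)‖ with hR
  have hR0 : ∀ j a y, 0 ≤ R j a y := fun _ _ _ => norm_nonneg _
  set Gf : ℕ → ℕ → ℝ := fun j x =>
    (∑ n ∈ range h, ∑ a ∈ range (m * q ^ e j), R j a (x + n)) / Hf (e j) with hG
  have hG0 : ∀ j x, 0 ≤ Gf j x := fun j x =>
    div_nonneg (Finset.sum_nonneg fun n _ => Finset.sum_nonneg fun a _ => hR0 _ _ _)
      (Nat.cast_nonneg _)
  -- one `x`
  have hone : ∀ x, ‖∑ n ∈ range h, mc (x + n) * F x (n + s x)‖ ≤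
      ∑ j ∈ range (B + 1), Gf j x + 3 / 8 * (ε * h) := by
    intro x
    obtain ⟨I, β, f, hI, hβ, hdep, ⟨t, ht, hf⟩, hFe⟩ := hF x
    have h1 : ∀ n, f n = t ∅ := by
      intro n
      rw [hf n]
      unfold FP
      rw [Finset.sum_eq_single ∅]
      · intro S _ hS
        exact ht S (Finset.card_pos.2 (Finset.nonempty_iff_ne_empty.2 hS))
      · intro h
        exact absurd (Finset.empty_mem_powerset _) h
    have h2 : ∀ n, F x n = β n * ee (t ∅) := fun n => by rw [hFe, h1]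
    have h3 : ‖∑ n ∈ range h, mc (x + n) * F x (n + s x)‖ =
        ‖∑ n ∈ range h, mc (x + n) * β (n + s x)‖ := by
      have h4 : ∑ n ∈ range h, mc (x + n) * F x (n + s x) =
          (∑ n ∈ range h, mc (x + n) * β (n + s x)) * ee (t ∅) := by
        rw [Finset.sum_mul]
        refine Finset.sum_congr rfl fun n _ => ?_
        rw [h2]
        ring
      rw [h4, norm_mul, PI.Kat_norm_ee, mul_one]
    rw [h3]
    rw [← hmdef] at hdep
    obtain ⟨j, hj, hgap⟩ := base_gap hI e hmono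
    have hjr : j ∈ range (B + 1) := mem_range.2 (by omega)
    have h4 := base_one hq hm hβ hdep hgap (hHf1 (e j)) x (s x) h
    have h5 : Gf j x ≤ ∑ j ∈ range (B + 1), Gf j x :=
      Finset.single_le_sum (f := fun j => Gf j x) (fun j _ => hG0 j x) hjr
    have h6 := hh' j hjr
    have hEp : (0 : ℝ) < (q : ℝ) ^ e (j + 1) := by positivity
    have h7 : (Hf (e j) : ℝ) * (h / (q : ℝ) ^ e (j + 1)) ≤ ε * h / 8 := by
      have h8 := hE j
      rw [mul_div_assoc', div_le_iff₀ hEp]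
      have h9 : (Hf (e j) : ℝ) ≤ ε / 8 * (q : ℝ) ^ e (j + 1) := by
        have h10 := mul_le_mul_of_nonneg_left h8 (show 0 ≤ ε / 8 by positivity)
        have h11 : ε / 8 * ((Hf (e j) : ℝ) * (8 / ε)) = Hf (e j) := by field_simp
        rwa [h11] at h10
      calc (Hf (e j) : ℝ) * h ≤ ε / 8 * (q : ℝ) ^ e (j + 1) * h :=
            mul_le_mul_of_nonneg_right h9 hhr
        _ = _ := by ring
    refine h4.trans ?_
    show Gf j x + _ ≤ _
    have h12 : (Hf (e j) : ℝ) * (h / (q : ℝ) ^ e (j + 1) + 2) + 2 * Hf (e j) ≤ 3 / 8 * (ε * h) := by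
      rw [mul_add]
      linarith
    linarith
  -- the sum over `x`
  have hsumG : ∀ j ∈ range (B + 1), ∑ x ∈ range X, Gf j x ≤ ε * h * X / (4 * ((B : ℝ) + 1)) := by
    intro j hj
    have hHr : (0 : ℝ) < Hf (e j) := by exact_mod_cast hHf1 (e j)
    have h1 : ∑ x ∈ range X, Gf j x =
        (∑ n ∈ range h, ∑ a ∈ range (m * q ^ e j), ∑ x ∈ range X, R j a (x + n)) /
          Hf (e j) := by
      rw [hG]
      simp only
      rw [← Finset.sum_div, Finset.sum_comm]
      congr 1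
      exact Finset.sum_congr rfl fun n _ => Finset.sum_comm
    have h2 : ∀ n ∈ range h, ∀ a ∈ range (m * q ^ e j), ∑ x ∈ range X, R j a (x + n) ≤
        ε / (8 * ((B : ℝ) + 1) * ((m * q ^ e j : ℕ) : ℝ)) * Hf (e j) * (2 * X) := by
      intro n hn a ha
      refine (base_shift (R j a) (hR0 j a) (mem_range.1 hn)).trans ?_
      have h3 := hXf (e j) (X + h) ((hX' j hj).trans (Nat.le_add_right _ _)) a (mem_range.1 ha)
      refine h3.trans (mul_le_mul_of_nonneg_left ?_ ?_)
      · have : (h : ℝ) ≤ X := by exact_mod_cast hXh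
        push_cast
        linarith
      · have := hQr (e j)
        positivity
    rw [h1, div_le_iff₀ hHr]
    refine (Finset.sum_le_sum fun n hn => Finset.sum_le_sum fun a ha => h2 n hn a ha).trans ?_
    rw [Finset.sum_const, Finset.sum_const, card_range, card_range, nsmul_eq_mul, nsmul_eq_mul]
    have h4 := hQr (e j)
    refine le_of_eq ?_
    field_simp
    ring
  have hfin : ∑ x ∈ range X, (∑ j ∈ range (B + 1), Gf j x + 3 / 8 * (ε * h)) ≤
      ε * h * X / 4 + 3 / 8 * (ε * h) * X := by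
    rw [Finset.sum_add_distrib, Finset.sum_const, card_range, nsmul_eq_mul, Finset.sum_comm]
    refine add_le_add ?_ (le_of_eq (mul_comm _ _))
    refine (Finset.sum_le_sum hsumG).trans ?_
    rw [Finset.sum_const, card_range, nsmul_eq_mul]
    refine le_of_eq ?_
    push_cast
    field_simp
  refine (Finset.sum_le_sum fun x _ => hone x).trans (hfin.trans ?_)
  have h1 : 0 ≤ ε * h * X := by positivity
  linarith

end Pool.Agent.Lib.MP_3e612f_nt.LOD
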