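import Pool.Agent.Lib.MP_3e612f_nt.LO.D.Tr
import Pool.Agent.Lib.MP_3e612f_nt.LO.M.Words
import Pool.Agent.Lib.MP_3e612f_nt.EM.FinA

/-!
The local theorem for one character, from the theorem for all classes of functions.
-/

set_option autoImplicit false

namespace Pool.Agent.Lib.MP_3e612f_nt.LOD

open Finset
open Pool.Agent.Lib.MP_3e612f_nt.PI (ee mc)
open Pool.Agent.Lib.MP_3e612f_nt.EM

theorem lmain_of_LPO {q m d : ℕ} (hq : 2 ≤ q) (hm : 0 < m) (h : LPO q d) :
    LOM.LMain q (q * m) d := by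
  intro M _ ε hε
  obtain ⟨h0, hh0⟩ := h m M 0 hm ε hε
  refine ⟨h0, fun h hh => ?_⟩
  obtain ⟨X0, hX0⟩ := hh0 h hh
  refine ⟨X0, fun X hX L s F => ?_⟩
  exact hX0 X hX L s (fun x n => ee (phm q (q * m) d (L x) (F x) n)) fun x =>
    ⟨∅, fun _ => 1, phm q (q * m) d (L x) (F x), by simp, fun _ => by simp, fun _ _ _ => rfl,
      isPL_phm (Nat.mul_pos (by omega) hm) (F x), fun n => (one_mul _).symm⟩

/-- the local theorem for one character, from the theorem of Matomaki and Radziwill -/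
theorem lmain (hM : MRp) (q m d : ℕ) (hq : 2 ≤ q) (hm : 1 ≤ m) (_hd : 1 ≤ d) :
    LOM.LMain q (q * m) d :=
  lmain_of_LPO hq hm (lpo_all hq hM d)

end Pool.Agent.Lib.MP_3e612f_nt.LOD
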