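import Pool.Agent.Lib.MP_3e612f_nt.EM.Defs

/-!
# Local uniformity of the Moebius function with respect to digit polynomials: statements

`MRp` is the theorem of Matomaki and Radziwill for the Moebius function in a residue class, in
qualitative form; here it is a hypothesis. `LPO q d`: the local theorem (the supremum over the phases is
inside the average over the intervals; families `F x` of functions instead of a supremum). `LOR q d m'`:
the same for phases whose leading coefficients are killed by `m'`.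
-/

set_option autoImplicit false

namespace Pool.Agent.Lib.MP_3e612f_nt.LOD

open Finset
open Pool.Agent.Lib.MP_3e612f_nt.PI (ee mc)
open Pool.Agent.Lib.MP_3e612f_nt.EM

/-- the Moebius function has mean value `0` in almost all short intervals, in every residue class -/
def MRp : Prop :=
  ∀ Q : ℕ, 1 ≤ Q → ∀ ε : ℝ, 0 < ε → ∃ H0 : ℕ, ∀ H ≥ H0, ∃ X0 : ℕ, ∀ X ≥ X0, ∀ a < Q,
    ∑ y ∈ range X, ‖∑ k ∈ (range H).filter (fun k => (y + k) % Q = a), mc (y + k)‖ ≤ ε * H * X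

/-- the local theorem for phases of degree `≤ d` and frozen factors -/
def LPO (q d : ℕ) : Prop :=
  ∀ (T M B : ℕ) [NeZero M], 0 < T → ∀ ε : ℝ, 0 < ε → ∃ h0 : ℕ, ∀ h ≥ h0, ∃ X0 : ℕ, ∀ X ≥ X0,
    ∀ (L s : ℕ → ℕ) (F : ℕ → ℕ → ℂ), (∀ x, Cls q d T M B (L x) (F x)) →
      ∑ x ∈ range X, ‖∑ n ∈ range h, mc (x + n) * F x (n + s x)‖ ≤ ε * h * X

/-- the local theorem for phases whose leading coefficients are killed by `m'` -/
def LOR (q d m' : ℕ) : Prop :=
  ∀ (T M B w0 : ℕ) [NeZero M], 0 < T → m' ∣ M → ∀ ε : ℝ, 0 < ε → ∃ h0 : ℕ, ∀ h ≥ h0, ∃ X0 : ℕ,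
    ∀ X ≥ X0, ∀ K1 L : ℕ, h ≤ q ^ K1 → q ^ K1 ≤ q * h → L ≤ K1 + w0 →
      ∀ (s : ℕ → ℕ) (F : ℕ → ℕ → ℂ), (∀ x, ClsK q d m' T M B L (F x)) →
        ∑ x ∈ range X, ‖∑ n ∈ range h, mc (x + n) * F x (n + s x)‖ ≤ ε * h * X

end Pool.Agent.Lib.MP_3e612f_nt.LOD
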