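import Pool.Agent.Lib.MP_3e612f_nt.LO.D.Defs
import Pool.Agent.Lib.MP_3e612f_nt.PI.Kat

/-!
The local form of Katai's criterion.

PROOF of `lkat`. Let `S x = ∑_{n < h} μ(x + n) F_x(n + s_x)` and `c_x` with `|c_x| ≤ 1`, `c_x S_x = |S_x|`. Then
`∑_{x < X} |S_x| = ∑_m μ(m) A(m)`, `A m = ∑_{x < X, x ≤ m < x + h} c_x F_x(m - x + s_x)`, `|A| ≤ h`. Katai for
`Re A / h` and `Im A / h`. The sum `∑_{m ≤ N'} A(p m) A(r m)` is the sum over `x, y` of `c_x c_y` times the sum
over an interval of `m` of `F_x(p m - x + s_x) F_y(r m - y + s_y)`, which is at most `1 + δ h` by hypothesis;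
for given `x` there are at most `(r + 1) h` values of `y` with a nonempty interval.
-/

set_option autoImplicit false

namespace Pool.Agent.Lib.MP_3e612f_nt.LOD

open Finset
open Pool.Agent.Lib.MP_3e612f_nt.PI (ee mc)

/-- ceiling division -/
theorem kat_cdiv {p : ℕ} (hp : 0 < p) (x m : ℕ) : (x + p - 1) / p ≤ m ↔ x ≤ p * m := by
  rw [Nat.div_le_iff_le_mul_add_pred hp]
  constructor <;> intro h <;> [skip; skip]
  · have : m * p = p * m := mul_comm _ _
    omega
  · have : m * p = p * m := mul_comm _ _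
    omega

theorem kat_cdiv' {p : ℕ} (hp : 0 < p) (x m : ℕ) : m < (x + p - 1) / p ↔ p * m < x := by
  rw [← not_le, kat_cdiv hp, not_le]

/-- the interval of the `m` with `x ≤ p m < x + h` and `y ≤ r m < y + h` -/
theorem kat_interval {p r : ℕ} (hp : 0 < p) (hr : 0 < r) (h x y M' : ℕ) :
    ((Icc 1 M').filter fun m => (x ≤ p * m ∧ p * m < x + h) ∧ (y ≤ r * m ∧ r * m < y + h)) =
      Ico (max 1 (max ((x + p - 1) / p) ((y + r - 1) / r)))
        (min (M' + 1) (min ((x + h + p - 1) / p) ((y + h + r - 1) / r))) := by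
  ext m
  rw [mem_filter, mem_Icc, mem_Ico, max_le_iff, max_le_iff, lt_min_iff, lt_min_iff, kat_cdiv hp,
    kat_cdiv hr, kat_cdiv' hp, kat_cdiv' hr]
  constructor
  · rintro ⟨⟨h1, h2⟩, ⟨h3, h4⟩, h5, h6⟩
    exact ⟨⟨h1, h3, h5⟩, by omega, h4, h6⟩
  · rintro ⟨⟨h1, h3, h5⟩, h2, h4, h6⟩
    exact ⟨⟨h1, by omega⟩, ⟨h3, h4⟩, h5, h6⟩

/-- the inner sum -/
theorem kat_inner {p r : ℕ} (hp : 0 < p) (hr : 0 < r) {h : ℕ} (u v : ℕ → ℂ) (hu : ∀ n, ‖u n‖ ≤ 1)
    (hv : ∀ n, ‖v n‖ ≤ 1) {δ : ℝ} (hδ : 0 ≤ δ)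
    (hs : ∀ s1 s2 : ℕ, ∀ N' ≤ h, ‖∑ n ∈ Icc 1 N', u (p * n + s1) * v (r * n + s2)‖ ≤ δ * h)
    (x y sx sy M' : ℕ) :
    ‖∑ m ∈ Icc 1 M', (if (x ≤ p * m ∧ p * m < x + h) ∧ (y ≤ r * m ∧ r * m < y + h) then
      u (p * m - x + sx) * v (r * m - y + sy) else 0)‖ ≤ 1 + δ * h := by
  rw [← Finset.sum_filter, kat_interval hp hr]
  set a := max 1 (max ((x + p - 1) / p) ((y + r - 1) / r)) with ha
  set b := min (M' + 1) (min ((x + h + p - 1) / p) ((y + h + r - 1) / r)) with hb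
  have hδh : 0 ≤ δ * h := by positivity
  rcases Nat.lt_or_ge a b with hab | hab
  · have hax : x ≤ p * a := (kat_cdiv hp x a).1 (by
      rw [ha]
      exact (le_max_left _ _).trans (le_max_right _ _))
    have hay : y ≤ r * a := (kat_cdiv hr y a).1 (by
      rw [ha]
      exact (le_max_right _ _).trans (le_max_right _ _))
    obtain ⟨k, hk⟩ := Nat.exists_eq_add_of_lt hab
    have hbx : p * (a + k) < x + h := (kat_cdiv' hp _ _).1 (by
      have : b ≤ (x + h + p - 1) / p := by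
        rw [hb]
        exact (min_le_right _ _).trans (min_le_left _ _)
      omega)
    have hkh : k ≤ h := by
      have h1 : p * (a + k) = p * a + p * k := mul_add _ _ _
      have h2 : k ≤ p * k := Nat.le_mul_of_pos_left _ hp
      omega
    rw [hk, Finset.sum_Ico_eq_sum_range]
    have e1 : a + k + 1 - a = k + 1 := by omega
    rw [e1]
    have e2 : ∀ j ∈ range (k + 1), u (p * (a + j) - x + sx) * v (r * (a + j) - y + sy) =
        u (p * j + (p * a - x + sx)) * v (r * j + (r * a - y + sy)) := by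
      intro j _
      have e3 : p * (a + j) - x + sx = p * j + (p * a - x + sx) := by
        have : p * (a + j) = p * a + p * j := mul_add _ _ _
        omega
      have e4 : r * (a + j) - y + sy = r * j + (r * a - y + sy) := by
        have : r * (a + j) = r * a + r * j := mul_add _ _ _
        omega
      rw [e3, e4]
    rw [Finset.sum_congr rfl e2]
    have e5 : ∑ j ∈ range (k + 1), u (p * j + (p * a - x + sx)) * v (r * j + (r * a - y + sy)) =
        u (p * 0 + (p * a - x + sx)) * v (r * 0 + (r * a - y + sy)) +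
        ∑ j ∈ Icc 1 k, u (p * j + (p * a - x + sx)) * v (r * j + (r * a - y + sy)) := by
      rw [Finset.sum_range_succ', add_comm]
      congr 1
      refine Finset.sum_bij' (fun n _ => n + 1) (fun n _ => n - 1) ?_ ?_ ?_ ?_ ?_
      · intro n hn
        rw [mem_range] at hn
        rw [mem_Icc]
        omega
      · intro n hn
        rw [mem_Icc] at hn
        rw [mem_range]
        omega
      · intro n _
        show n + 1 - 1 = n
        omega
      · intro n hn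
        rw [mem_Icc] at hn
        show n - 1 + 1 = n
        omega
      · intro n _
        rfl
    rw [e5]
    refine (norm_add_le _ _).trans (add_le_add ?_ (hs _ _ k hkh))
    rw [norm_mul]
    calc _ ≤ (1 : ℝ) * 1 := mul_le_mul (hu _) (hv _) (norm_nonneg _) zero_le_one
      _ = 1 := one_mul _
  · rw [Finset.Ico_eq_empty (by omega), Finset.sum_empty, norm_zero]
    linarith

/-- the range of the `y` with a nonempty interval -/
theorem kat_count {p r : ℕ} (hp : 0 < p) {h : ℕ} {x y m : ℕ}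
    (hm : (x ≤ p * m ∧ p * m < x + h) ∧ (y ≤ r * m ∧ r * m < y + h)) :
    y ∈ Ico (r * ((x + p - 1) / p) + 1 - h) (r * ((x + p - 1) / p) + r * h + 1) := by
  set m0 := (x + p - 1) / p with hm0
  obtain ⟨⟨h1, h2⟩, h3, h4⟩ := hm
  have h5 : m0 ≤ m := (kat_cdiv hp x m).2 h1
  have h6 : x ≤ p * m0 := (kat_cdiv hp x m0).1 le_rfl
  obtain ⟨j, rfl⟩ := Nat.exists_eq_add_of_le h5
  have h7 : p * (m0 + j) = p * m0 + p * j := mul_add _ _ _
  have h8 : j ≤ p * j := Nat.le_mul_of_pos_left _ hp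
  have h9 : r * (m0 + j) = r * m0 + r * j := mul_add _ _ _
  have h10 : r * j ≤ r * (h - 1) := Nat.mul_le_mul_left _ (by omega)
  have h11 : r * h = r * (h - 1) + r := by
    obtain ⟨h', rfl⟩ : ∃ h', h = h' + 1 := ⟨h - 1, by omega⟩
    rw [Nat.add_sub_cancel, mul_add, mul_one]
  rw [mem_Ico]
  omega

theorem kat_card {p r h x : ℕ} :
    (Ico (r * ((x + p - 1) / p) + 1 - h) (r * ((x + p - 1) / p) + r * h + 1)).card ≤
      (r + 1) * h + 1 := by
  rw [Nat.card_Ico]
  have : (r + 1) * h = r * h + h := by ring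
  omega

/-- the pair sums of the averaged function -/
theorem kat_pair {p r : ℕ} (hp : 0 < p) (hr : 0 < r) {h : ℕ} (X M' : ℕ)
    (c c' : ℕ → ℂ) (hc : ∀ x, ‖c x‖ ≤ 1) (hc' : ∀ x, ‖c' x‖ ≤ 1) (F F' : ℕ → ℕ → ℂ)
    (hF : ∀ x n, ‖F x n‖ ≤ 1) (hF' : ∀ x n, ‖F' x n‖ ≤ 1) (s : ℕ → ℕ) {δ : ℝ} (hδ : 0 ≤ δ)
    (hs : ∀ x y s1 s2 : ℕ, ∀ N' ≤ h, ‖∑ n ∈ Icc 1 N', F x (p * n + s1) * F' y (r * n + s2)‖ ≤
      δ * h) :
    ‖∑ m ∈ Icc 1 M', (∑ x ∈ range X, if x ≤ p * m ∧ p * m < x + h then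
        c x * F x (p * m - x + s x) else 0) *
      ∑ y ∈ range X, if y ≤ r * m ∧ r * m < y + h then c' y * F' y (r * m - y + s y) else 0‖ ≤
      X * (((r + 1) * h + 1 : ℕ) * (1 + δ * h)) := by
  have e1 : ∑ m ∈ Icc 1 M', (∑ x ∈ range X, if x ≤ p * m ∧ p * m < x + h then
        c x * F x (p * m - x + s x) else 0) *
      (∑ y ∈ range X, if y ≤ r * m ∧ r * m < y + h then c' y * F' y (r * m - y + s y) else 0) =
      ∑ x ∈ range X, ∑ y ∈ range X, c x * c' y * ∑ m ∈ Icc 1 M',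
        (if (x ≤ p * m ∧ p * m < x + h) ∧ (y ≤ r * m ∧ r * m < y + h) then
          F x (p * m - x + s x) * F' y (r * m - y + s y) else 0) := by
    simp_rw [Finset.sum_mul_sum, Finset.mul_sum]
    rw [Finset.sum_comm]
    refine Finset.sum_congr rfl fun x _ => ?_
    rw [Finset.sum_comm]
    refine Finset.sum_congr rfl fun y _ => Finset.sum_congr rfl fun m _ => ?_
    by_cases h1 : x ≤ p * m ∧ p * m < x + h
    · by_cases h2 : y ≤ r * m ∧ r * m < y + h
      · rw [if_pos h1, if_pos h2, if_pos ⟨h1, h2⟩]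
        ring
      · have h3 : ¬ ((x ≤ p * m ∧ p * m < x + h) ∧ (y ≤ r * m ∧ r * m < y + h)) :=
          fun h' => h2 h'.2
        rw [if_neg h2, if_neg h3, mul_zero, mul_zero]
    · have h3 : ¬ ((x ≤ p * m ∧ p * m < x + h) ∧ (y ≤ r * m ∧ r * m < y + h)) :=
        fun h' => h1 h'.1
      rw [if_neg h1, if_neg h3, mul_zero, zero_mul]
  rw [e1]
  have hx : ∀ x ∈ range X, ‖∑ y ∈ range X, c x * c' y * ∑ m ∈ Icc 1 M',
        (if (x ≤ p * m ∧ p * m < x + h) ∧ (y ≤ r * m ∧ r * m < y + h) then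
          F x (p * m - x + s x) * F' y (r * m - y + s y) else 0)‖ ≤
      ((r + 1) * h + 1 : ℕ) * (1 + δ * h) := by
    intro x _
    set J := Ico (r * ((x + p - 1) / p) + 1 - h) (r * ((x + p - 1) / p) + r * h + 1) with hJ
    set Y := (range X).filter fun y => y ∈ J with hY
    have e2 : ∑ y ∈ range X, c x * c' y * ∑ m ∈ Icc 1 M',
        (if (x ≤ p * m ∧ p * m < x + h) ∧ (y ≤ r * m ∧ r * m < y + h) then
          F x (p * m - x + s x) * F' y (r * m - y + s y) else 0) =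
        ∑ y ∈ Y, c x * c' y * ∑ m ∈ Icc 1 M',
        (if (x ≤ p * m ∧ p * m < x + h) ∧ (y ≤ r * m ∧ r * m < y + h) then
          F x (p * m - x + s x) * F' y (r * m - y + s y) else 0) := by
      symm
      refine Finset.sum_subset (filter_subset _ _) fun y hy hyY => ?_
      rw [Finset.sum_eq_zero, mul_zero]
      intro m _
      rw [if_neg]
      intro h1
      exact hyY (mem_filter.2 ⟨hy, kat_count hp h1⟩)
    rw [e2]
    refine (norm_sum_le _ _).trans ((Finset.sum_le_card_nsmul _ _ (1 + δ * h) ?_).trans ?_)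
    · intro y _
      rw [norm_mul, norm_mul]
      have h1 := kat_inner hp hr (F x) (F' y) (hF x) (hF' y) hδ (hs x y) x y (s x) (s y) M'
      calc ‖c x‖ * ‖c' y‖ * _ ≤ 1 * 1 * (1 + δ * h) :=
            mul_le_mul (mul_le_mul (hc x) (hc' y) (norm_nonneg _) zero_le_one) h1 (norm_nonneg _)
              (by norm_num)
        _ = _ := by ring
    · rw [nsmul_eq_mul]
      have h0 : Y.card ≤ (r + 1) * h + 1 := by
        refine (card_le_card ?_).trans (kat_card (p := p) (r := r) (h := h) (x := x))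
        intro y hy
        exact (mem_filter.1 hy).2
      have h1 : (Y.card : ℝ) ≤ ((r + 1) * h + 1 : ℕ) := by exact_mod_cast h0
      exact mul_le_mul_of_nonneg_right h1 (by positivity)
  refine (norm_sum_le _ _).trans ((Finset.sum_le_card_nsmul _ _ _ hx).trans ?_)
  rw [card_range, nsmul_eq_mul]

theorem kat_unit (z : ℂ) : ∃ c : ℂ, ‖c‖ ≤ 1 ∧ c * z = (‖z‖ : ℂ) := by
  by_cases hz : z = 0
  · exact ⟨0, by simp, by simp [hz]⟩
  · have h1 : (‖z‖ : ℂ) ≠ 0 := by exact_mod_cast (norm_ne_zero_iff.2 hz)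
    refine ⟨(starRingEnd ℂ) z / ‖z‖, ?_, ?_⟩
    · rw [norm_div, RCLike.norm_conj, Complex.norm_real, norm_norm, div_self (norm_ne_zero_iff.2 hz)]
    · rw [div_mul_eq_mul_div, mul_comm, Complex.mul_conj, Complex.normSq_eq_norm_sq, div_eq_iff h1]
      push_cast
      ring

/-- the average of `μ(x + n) u(n)` as a sum over `m = x + n` -/
theorem kat_shift {x h N : ℕ} (hN : x + h ≤ N) (u : ℕ → ℂ) :
    ∑ n ∈ range h, mc (x + n) * u n =
      ∑ m ∈ Icc 1 N, if x ≤ m ∧ m < x + h then mc m * u (m - x) else 0 := by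
  rw [← Finset.sum_filter]
  have h1 : ∑ n ∈ range h, mc (x + n) * u n = ∑ m ∈ Ico x (x + h), mc m * u (m - x) := by
    rw [Finset.sum_Ico_eq_sum_range, Nat.add_sub_cancel_left]
    refine Finset.sum_congr rfl fun n _ => ?_
    rw [Nat.add_sub_cancel_left]
  rw [h1]
  symm
  refine Finset.sum_subset ?_ ?_
  · intro m hm
    obtain ⟨h2, h3, h4⟩ := mem_filter.1 hm
    exact mem_Ico.2 ⟨h3, h4⟩
  · intro m hm hm'
    obtain ⟨h2, h3⟩ := mem_Ico.1 hm
    have h4 : m = 0 := by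
      by_contra h0
      exact hm' (mem_filter.2 ⟨mem_Icc.2 ⟨by omega, by omega⟩, h2, h3⟩)
    subst h4
    have h5 : mc 0 = 0 := by
      unfold mc
      simp
    rw [h5, zero_mul]

/-- the size of the averaged function -/
theorem kat_size {h : ℕ} (X m : ℕ) (v : ℕ → ℂ) (hv : ∀ x, ‖v x‖ ≤ 1) :
    ‖∑ x ∈ range X, if x ≤ m ∧ m < x + h then v x else 0‖ ≤ h := by
  rw [← Finset.sum_filter]
  refine (norm_sum_le _ _).trans ((Finset.sum_le_card_nsmul _ _ 1 fun x _ => hv x).trans ?_)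
  rw [nsmul_eq_mul, mul_one]
  have h1 : ((range X).filter fun x => x ≤ m ∧ m < x + h).card ≤ h := by
    have h2 : ((range X).filter fun x => x ≤ m ∧ m < x + h) ⊆ Ico (m + 1 - h) (m + 1) := by
      intro x hx
      obtain ⟨-, h3, h4⟩ := mem_filter.1 hx
      rw [mem_Ico]
      omega
    refine (card_le_card h2).trans ?_
    rw [Nat.card_Ico]
    omega
  exact_mod_cast h1

/-- **the local form of Katai's criterion** -/
theorem lkat (P0 : ℕ) {ε : ℝ} (hε : 0 < ε) :
    ∃ (P : Finset ℕ) (δ : ℝ) (h0 : ℕ), (∀ p ∈ P, p.Prime ∧ P0 < p) ∧ 0 < δ ∧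
      ∀ h ≥ h0, ∃ X0 : ℕ, ∀ X ≥ X0, ∀ (s : ℕ → ℕ) (F : ℕ → ℕ → ℂ), (∀ x n, ‖F x n‖ ≤ 1) →
        (∀ p ∈ P, ∀ r ∈ P, p < r → ∀ x y s1 s2 : ℕ, ∀ N' ≤ h,
          ‖∑ n ∈ Icc 1 N', F x (p * n + s1) * F y (r * n + s2)‖ ≤ δ * h ∧
          ‖∑ n ∈ Icc 1 N', F x (p * n + s1) * (starRingEnd ℂ) (F y (r * n + s2))‖ ≤ δ * h) →
        ∑ x ∈ range X, ‖∑ n ∈ range h, mc (x + n) * F x (n + s x)‖ ≤ ε * h * X := by
  obtain ⟨P, δ1, N1, hP, hδ1, hk⟩ := PB.katai_fin (A := 1) le_rfl P0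
    (show 0 < ε / 2 by positivity)
  set R : ℕ := P.sup id with hR
  set δ : ℝ := δ1 / (2 * ((R : ℝ) + 2)) with hδ
  have hδ0 : 0 < δ := by positivity
  refine ⟨P, δ, max 1 ⌈1 / δ⌉₊, hP, hδ0, fun h hh => ⟨max N1 h, fun X hX s F hF hs => ?_⟩⟩
  have hh1 : 1 ≤ h := le_trans (le_max_left _ _) hh
  have hh2 : 1 ≤ δ * h := by
    have h1 : 1 / δ ≤ (h : ℝ) :=
      (Nat.le_ceil _).trans (by exact_mod_cast (le_max_right _ _).trans hh)
    rw [div_le_iff₀ hδ0] at h1
    linarith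
  have hX1 : N1 ≤ X := (le_max_left _ _).trans hX
  have hX2 : h ≤ X := (le_max_right _ _).trans hX
  have hhr : (0 : ℝ) < h := by exact_mod_cast hh1
  have hXr : (h : ℝ) ≤ X := by exact_mod_cast hX2
  set S : ℕ → ℂ := fun x => ∑ n ∈ range h, mc (x + n) * F x (n + s x) with hS
  choose c hc1 hc2 using fun x => kat_unit (S x)
  set N : ℕ := X + h with hN
  set A : ℕ → ℂ := fun m => ∑ x ∈ range X, if x ≤ m ∧ m < x + h then
    c x * F x (m - x + s x) else 0 with hA
  -- the sum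
  have hsum : ((∑ x ∈ range X, ‖S x‖ : ℝ) : ℂ) = ∑ m ∈ Icc 1 N, mc m * A m := by
    push_cast
    have h1 : ∀ x ∈ range X, (‖S x‖ : ℂ) = ∑ m ∈ Icc 1 N, if x ≤ m ∧ m < x + h then
        mc m * (c x * F x (m - x + s x)) else 0 := by
      intro x hx
      rw [← hc2 x, hS]
      simp only
      rw [kat_shift (N := N) (by
        have := mem_range.1 hx
        omega) fun n => F x (n + s x), Finset.mul_sum]
      refine Finset.sum_congr rfl fun m _ => ?_
      split_ifs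
      · ring
      · rw [mul_zero]
    rw [Finset.sum_congr rfl h1, Finset.sum_comm]
    refine Finset.sum_congr rfl fun m _ => ?_
    rw [hA]
    simp only
    rw [Finset.mul_sum]
    refine Finset.sum_congr rfl fun x _ => ?_
    split_ifs
    · rfl
    · rw [mul_zero]
  have hcF : ∀ x n, ‖c x * F x n‖ ≤ 1 := fun x n => by
    rw [norm_mul]
    calc _ ≤ (1 : ℝ) * 1 := mul_le_mul (hc1 x) (hF x n) (norm_nonneg _) zero_le_one
      _ = 1 := one_mul _
  have hAh : ∀ m, ‖A m‖ ≤ h := fun m => kat_size X m (fun x => c x * F x (m - x + s x)) fun x =>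
    hcF x _
  set b : ℕ → ℝ := fun m => (A m).re / h with hb
  have hb1 : ∀ m, |b m| ≤ 1 := by
    intro m
    rw [hb]
    simp only
    rw [abs_div, abs_of_pos hhr, div_le_one hhr]
    exact (Complex.abs_re_le_norm _).trans (hAh m)
  have hkat := hk N (by omega) b hb1 (by
    intro p hp r hr hpr
    have hp0 : 0 < p := (hP p hp).1.pos
    have hr0 : 0 < r := (hP r hr).1.pos
    have hrR : r ≤ R := by
      rw [hR]
      exact Finset.le_sup (f := id) hr
    have k1 := kat_pair hp0 hr0 X (N / r) c c hc1 hc1 F F hF hF s hδ0.le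
      (fun x y s1 s2 N' hN' => (hs p hp r hr hpr x y s1 s2 N' hN').1)
    have k2 := kat_pair hp0 hr0 X (N / r) c (fun y => (starRingEnd ℂ) (c y)) hc1
      (fun y => by rw [RCLike.norm_conj]; exact hc1 y) F (fun y n => (starRingEnd ℂ) (F y n)) hF
      (fun y n => by rw [RCLike.norm_conj]; exact hF y n) s hδ0.le
      (fun x y s1 s2 N' hN' => (hs p hp r hr hpr x y s1 s2 N' hN').2)
    have e1 : ∀ m, (∑ x ∈ range X, if x ≤ m ∧ m < x + h then c x * F x (m - x + s x) else 0) =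
        A m := fun _ => rfl
    have e2 : ∀ m, (∑ y ∈ range X, if y ≤ m ∧ m < y + h then (starRingEnd ℂ) (c y) *
        (starRingEnd ℂ) (F y (m - y + s y)) else 0) = (starRingEnd ℂ) (A m) := by
      intro m
      rw [hA]
      simp only
      rw [map_sum]
      refine Finset.sum_congr rfl fun y _ => ?_
      split_ifs
      · rw [map_mul]
      · rw [map_zero]
    simp only [e1, e2] at k1 k2
    have e3 : ∑ m ∈ Icc 1 (N / r), b (p * m) * b (r * m) =
        ((∑ m ∈ Icc 1 (N / r), A (p * m) * A (r * m)).re +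
          (∑ m ∈ Icc 1 (N / r), A (p * m) * (starRingEnd ℂ) (A (r * m))).re) / (2 * h ^ 2) := by
      rw [Complex.re_sum, Complex.re_sum, ← sum_add_distrib, sum_div]
      refine Finset.sum_congr rfl fun m _ => ?_
      rw [hb]
      simp only
      rw [Complex.mul_re, Complex.mul_re, Complex.conj_re, Complex.conj_im]
      field_simp
      ring
    have hrR' : (r : ℝ) ≤ R := by exact_mod_cast hrR
    have hbound : (X : ℝ) * (((r + 1) * h + 1 : ℕ) * (1 + δ * h)) ≤ δ1 * X * h ^ 2 := by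
      have h1 : (((r + 1) * h + 1 : ℕ) : ℝ) ≤ (R + 2) * h := by
        push_cast
        have : (1 : ℝ) ≤ h := by exact_mod_cast hh1
        nlinarith
      have h2 : 1 + δ * h ≤ 2 * (δ * h) := by linarith
      have h3 : (((r + 1) * h + 1 : ℕ) : ℝ) * (1 + δ * h) ≤ ((R + 2) * h) * (2 * (δ * h)) :=
        mul_le_mul h1 h2 (by positivity) (by positivity)
      have h4 : ((R : ℝ) + 2) * h * (2 * (δ * h)) = δ1 * h ^ 2 := by
        rw [hδ]
        field_simp
      rw [h4] at h3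
      calc (X : ℝ) * (((r + 1) * h + 1 : ℕ) * (1 + δ * h)) ≤ X * (δ1 * h ^ 2) :=
            mul_le_mul_of_nonneg_left h3 (Nat.cast_nonneg _)
        _ = _ := by ring
    rw [e3, abs_div, abs_of_pos (show (0 : ℝ) < 2 * h ^ 2 by positivity),
      div_le_iff₀ (by positivity)]
    have h5 := (Complex.abs_re_le_norm (∑ m ∈ Icc 1 (N / r), A (p * m) * A (r * m))).trans
      (k1.trans hbound)
    have h6 := (Complex.abs_re_le_norm
      (∑ m ∈ Icc 1 (N / r), A (p * m) * (starRingEnd ℂ) (A (r * m)))).trans (k2.trans hbound)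
    have h7 := abs_add_le (∑ m ∈ Icc 1 (N / r), A (p * m) * A (r * m)).re
      (∑ m ∈ Icc 1 (N / r), A (p * m) * (starRingEnd ℂ) (A (r * m))).re
    have h8 : δ1 * X * h ^ 2 ≤ δ1 * N * h ^ 2 := by
      have : (X : ℝ) ≤ N := by
        rw [hN]
        push_cast
        linarith
      exact mul_le_mul_of_nonneg_right (mul_le_mul_of_nonneg_left this hδ1.le) (by positivity)
    calc _ ≤ δ1 * X * h ^ 2 + δ1 * X * h ^ 2 := h7.trans (add_le_add h5 h6)
      _ ≤ δ1 * N * h ^ 2 + δ1 * N * h ^ 2 := add_le_add h8 h8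
      _ = δ1 * N * (2 * h ^ 2) := by ring)
  have hre : (∑ x ∈ range X, ‖S x‖ : ℝ) = h * ∑ n ∈ Icc 1 N, mu n * b n := by
    have h1 := congrArg Complex.re hsum
    rw [Complex.ofReal_re, Complex.re_sum] at h1
    rw [h1, Finset.mul_sum]
    refine Finset.sum_congr rfl fun m _ => ?_
    have h2 : mc m = ((mu m : ℝ) : ℂ) := PI.Kat_mc m
    rw [h2, Complex.re_ofReal_mul, hb]
    simp only
    field_simp
  have h1 := (le_abs_self _).trans hkat
  have h2 : (N : ℝ) ≤ 2 * X := by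
    rw [hN]
    push_cast
    linarith
  show (∑ x ∈ range X, ‖S x‖ : ℝ) ≤ _
  rw [hre]
  calc (h : ℝ) * ∑ n ∈ Icc 1 N, mu n * b n ≤ h * (ε / 2 * N) :=
        mul_le_mul_of_nonneg_left h1 hhr.le
    _ ≤ h * (ε / 2 * (2 * X)) :=
        mul_le_mul_of_nonneg_left (mul_le_mul_of_nonneg_left h2 (by positivity)) hhr.le
    _ = ε * h * X := by ring

end Pool.Agent.Lib.MP_3e612f_nt.LOD
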