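import Pool.Agent.Lib.MP_3e612f_nt.PI.Defs

/-!
From the local theorem (arbitrary points on short intervals) to the strong MOMO property of Abdalaoui,
Kulaga-Przymus, Lemanczyk and de la Rue: the sums over the blocks of an arbitrary partition into blocks
whose lengths tend to infinity, with an arbitrary point for every block.
-/

set_option autoImplicit false

namespace Pool.Agent.Lib.MP_3e612f_nt.LOD

open Finset Filter
open Pool.Agent.Lib.MP_3e612f_nt.PI (ee mc)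

/-- a sum over a block against the short sums inside the block -/
theorem momo_block (a : ℕ → ℂ) {C : ℝ} (ha : ∀ n, ‖a n‖ ≤ C) (p r h : ℕ) (hpr : p ≤ r) :
    (h : ℝ) * ‖∑ n ∈ Ico p r, a n‖ ≤ ∑ y ∈ Ico p r, ‖∑ n ∈ range h, a (y + n)‖ + 2 * h * h * C := by
  have hC : 0 ≤ C := (norm_nonneg _).trans (ha 0)
  have h1 : ∀ n ∈ range h, ‖∑ y ∈ Ico p r, a y - ∑ y ∈ Ico p r, a (y + n)‖ ≤ 2 * h * C := by
    intro n hn
    rw [mem_range] at hn
    have e1 : ∑ y ∈ Ico p r, a (y + n) = ∑ y ∈ Ico (p + n) (r + n), a y :=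
      Finset.sum_Ico_add' a p r n
    have e2 : ∑ y ∈ Ico p (p + n), a y + ∑ y ∈ Ico (p + n) (r + n), a y =
        ∑ y ∈ Ico p r, a y + ∑ y ∈ Ico r (r + n), a y := by
      rw [Finset.sum_Ico_consecutive _ (by omega) (by omega),
        Finset.sum_Ico_consecutive _ hpr (by omega)]
    have e3 : ∑ y ∈ Ico p r, a y - ∑ y ∈ Ico p r, a (y + n) =
        ∑ y ∈ Ico p (p + n), a y - ∑ y ∈ Ico r (r + n), a y := by
      rw [e1]
      linear_combination (-1 : ℂ) * e2
    have hb : ∀ c : ℕ, ‖∑ y ∈ Ico c (c + n), a y‖ ≤ h * C := by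
      intro c
      calc ‖∑ y ∈ Ico c (c + n), a y‖ ≤ ∑ y ∈ Ico c (c + n), C :=
            (norm_sum_le _ _).trans (sum_le_sum fun y _ => ha y)
        _ = n * C := by rw [sum_const, Nat.card_Ico, nsmul_eq_mul, Nat.add_sub_cancel_left]
        _ ≤ h * C := mul_le_mul_of_nonneg_right (by exact_mod_cast hn.le) hC
    rw [e3]
    refine (norm_sub_le _ _).trans ?_
    linarith [hb p, hb r]
  have h2 : (h : ℂ) * ∑ n ∈ Ico p r, a n = ∑ y ∈ Ico p r, ∑ n ∈ range h, a (y + n) +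
      ∑ n ∈ range h, (∑ y ∈ Ico p r, a y - ∑ y ∈ Ico p r, a (y + n)) := by
    rw [sum_sub_distrib, sum_comm (s := Ico p r), sum_const, card_range, nsmul_eq_mul]
    ring
  calc (h : ℝ) * ‖∑ n ∈ Ico p r, a n‖ = ‖(h : ℂ) * ∑ n ∈ Ico p r, a n‖ := by
        rw [norm_mul, Complex.norm_natCast]
    _ ≤ ‖∑ y ∈ Ico p r, ∑ n ∈ range h, a (y + n)‖ +
        ‖∑ n ∈ range h, (∑ y ∈ Ico p r, a y - ∑ y ∈ Ico p r, a (y + n))‖ := by
        rw [h2]
        exact norm_add_le _ _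
    _ ≤ ∑ y ∈ Ico p r, ‖∑ n ∈ range h, a (y + n)‖ + 2 * h * h * C := by
        refine add_le_add (norm_sum_le _ _) ?_
        calc _ ≤ ∑ n ∈ range h, 2 * (h : ℝ) * C := (norm_sum_le _ _).trans (sum_le_sum h1)
          _ = 2 * h * h * C := by
              rw [sum_const, card_range, nsmul_eq_mul]
              ring

/-- one point for every time: the orbit of the point of the block -/
theorem momo_pt {α : Type} (S : Set α) (T : α → α) (hT : Set.MapsTo T S S) (b : ℕ → ℕ)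
    (hb : StrictMono b) (x : ℕ → α) (hx : ∀ k, x k ∈ S) :
    ∃ z : ℕ → α, (∀ y, z y ∈ S) ∧ ∀ y k, b k ≤ y → y < b (k + 1) → z y = T^[y - b k] (x k) := by
  have h : ∀ y, ∃ z ∈ S, ∀ k, b k ≤ y → y < b (k + 1) → z = T^[y - b k] (x k) := by
    intro y
    by_cases h : ∃ k, b k ≤ y ∧ y < b (k + 1)
    · obtain ⟨k, hk1, hk2⟩ := h
      refine ⟨T^[y - b k] (x k), hT.iterate _ (hx k), fun k' h1 h2 => ?_⟩
      have e1 : k < k' + 1 := hb.lt_iff_lt.1 (lt_of_le_of_lt hk1 h2)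
      have e2 : k' < k + 1 := hb.lt_iff_lt.1 (lt_of_le_of_lt h1 hk2)
      have e3 : k = k' := by omega
      rw [e3]
    · exact ⟨x 0, hx 0, fun k h1 h2 => absurd ⟨k, h1, h2⟩ h⟩
  choose z hz1 hz2 using h
  exact ⟨z, hz1, hz2⟩

theorem momo_gap {b : ℕ → ℕ} (hb : StrictMono b) (hgap : Tendsto (fun k => b (k + 1) - b k) atTop atTop) (G : ℕ) :
    ∃ K0 : ℕ, ∀ K ≥ K0, G * K ≤ b K := by
  obtain ⟨K1, hK1⟩ := (tendsto_atTop_atTop.1 hgap) (2 * G)
  have h1 : ∀ j, 2 * G * j ≤ b (K1 + j) := by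
    intro j
    induction j with
    | zero => simp
    | succ j ih =>
      have h2 : 2 * G ≤ b (K1 + j + 1) - b (K1 + j) := hK1 (K1 + j) (by omega)
      have h3 : b (K1 + j) < b (K1 + j + 1) := hb (Nat.lt_succ_self _)
      have e : 2 * G * (j + 1) = 2 * G * j + 2 * G := by ring
      show 2 * G * (j + 1) ≤ b (K1 + j + 1)
      rw [e]
      omega
  refine ⟨2 * K1, fun K hK => ?_⟩
  have h2 := h1 (K - K1)
  rw [show K1 + (K - K1) = K by omega] at h2
  have h3 : G * K ≤ 2 * G * (K - K1) := by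
    have : K ≤ 2 * (K - K1) := by omega
    calc G * K ≤ G * (2 * (K - K1)) := Nat.mul_le_mul_left _ this
      _ = 2 * G * (K - K1) := by ring
  exact h3.trans h2

theorem momo_consec (b : ℕ → ℕ) (hb : StrictMono b) (G : ℕ → ℝ) (hG : ∀ y, 0 ≤ G y) (K : ℕ) :
    ∑ k ∈ range K, ∑ y ∈ Ico (b k) (b (k + 1)), G y ≤ ∑ y ∈ range (b K), G y := by
  have h1 : ∀ K, ∑ k ∈ range K, ∑ y ∈ Ico (b k) (b (k + 1)), G y = ∑ y ∈ Ico (b 0) (b K), G y := by
    intro K
    induction K with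
    | zero => simp
    | succ K ih =>
      rw [sum_range_succ, ih, Finset.sum_Ico_consecutive _ (hb.monotone (Nat.zero_le K))
        (hb.monotone (Nat.le_succ K))]
  rw [h1]
  refine sum_le_sum_of_subset_of_nonneg (fun y hy => ?_) fun y _ _ => hG y
  rw [mem_Ico] at hy
  exact mem_range.2 hy.2

/-- the local theorem implies the strong MOMO property -/
theorem momo_of_local {α : Type} (S : Set α) (T : α → α) (hT : Set.MapsTo T S S) (f : α → ℂ)
    {C : ℝ} (hC : ∀ x ∈ S, ‖f x‖ ≤ C)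
    (hloc : ∀ ε : ℝ, 0 < ε → ∃ h0 : ℕ, ∀ h ≥ h0, ∃ X0 : ℕ, ∀ X ≥ X0, ∀ y : ℕ → α,
      (∀ x, y x ∈ S) →
      ∑ x ∈ range X, ‖∑ n ∈ range h, mc (x + n) * f (T^[n] (y x))‖ ≤ ε * h * X)
    (b : ℕ → ℕ) (hb : StrictMono b) (hgap : Tendsto (fun k => b (k + 1) - b k) atTop atTop)
    (x : ℕ → α) (hx : ∀ k, x k ∈ S) :
    Tendsto (fun K : ℕ => (1 / (b K : ℝ)) * ∑ k ∈ range K,
      ‖∑ n ∈ Ico (b k) (b (k + 1)), f (T^[n - b k] (x k)) * mc n‖) atTop (nhds 0) := by
  have hC0 : 0 ≤ C := (norm_nonneg _).trans (hC _ (hx 0))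
  have hmc : ∀ n, ‖mc n‖ ≤ 1 := by
    intro n
    unfold mc
    rw [Complex.norm_intCast]
    exact_mod_cast ArithmeticFunction.abs_moebius_le_one
  obtain ⟨z, hz, hzk⟩ := momo_pt S T hT b hb x hx
  rw [Metric.tendsto_atTop]
  intro ε hε
  obtain ⟨h0, hh0⟩ := hloc (ε / 4) (by positivity)
  obtain ⟨X0, hX0⟩ := hh0 (h0 + 1) (Nat.le_succ h0)
  set h : ℕ := h0 + 1 with hh
  have hhpos : (0:ℝ) < h := by exact_mod_cast Nat.succ_pos h0
  obtain ⟨G, hG⟩ := exists_nat_ge (8 * h * C / ε + 1)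
  obtain ⟨K0, hK0⟩ := momo_gap hb hgap G
  refine ⟨max (max K0 X0) 1, fun K hK => ?_⟩
  have hK1 : K0 ≤ K := le_trans (le_trans (le_max_left _ _) (le_max_left _ _)) hK
  have hK2 : X0 ≤ K := le_trans (le_trans (le_max_right _ _) (le_max_left _ _)) hK
  have hK3 : 1 ≤ K := le_trans (le_max_right _ _) hK
  have hbK : K ≤ b K := hb.id_le K
  have hbpos : (0:ℝ) < b K := by exact_mod_cast lt_of_lt_of_le hK3 hbK
  have h1 := hX0 (b K) (hK2.trans hbK) z hz
  have h2 : (h : ℝ) * ∑ k ∈ range K,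
      ‖∑ n ∈ Ico (b k) (b (k + 1)), f (T^[n - b k] (x k)) * mc n‖ ≤
      ε / 4 * h * b K + K * (2 * h * h * C) := by
    rw [mul_sum]
    calc ∑ k ∈ range K, (h : ℝ) *
        ‖∑ n ∈ Ico (b k) (b (k + 1)), f (T^[n - b k] (x k)) * mc n‖
        ≤ ∑ k ∈ range K, (∑ y ∈ Ico (b k) (b (k + 1)),
            ‖∑ n ∈ range h, mc (y + n) * f (T^[n] (z y))‖ + 2 * h * h * C) := by
          refine sum_le_sum fun k _ => ?_
          have h3 := momo_block (fun n => f (T^[n - b k] (x k)) * mc n) (C := C) (fun n => by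
            rw [norm_mul]
            calc _ ≤ C * 1 := mul_le_mul (hC _ (hT.iterate _ (hx k))) (hmc n) (norm_nonneg _) hC0
              _ = C := mul_one C) (b k) (b (k + 1)) h (hb.monotone (Nat.le_succ k))
          refine h3.trans (add_le_add (le_of_eq (sum_congr rfl fun y hy => ?_)) le_rfl)
          rw [mem_Ico] at hy
          congr 1
          refine sum_congr rfl fun n _ => ?_
          rw [hzk y k hy.1 hy.2, ← Function.iterate_add_apply,
            show y + n - b k = n + (y - b k) by omega]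
          ring
      _ = ∑ k ∈ range K, ∑ y ∈ Ico (b k) (b (k + 1)),
            ‖∑ n ∈ range h, mc (y + n) * f (T^[n] (z y))‖ + K * (2 * h * h * C) := by
          rw [sum_add_distrib, sum_const, card_range, nsmul_eq_mul]
      _ ≤ ∑ y ∈ range (b K), ‖∑ n ∈ range h, mc (y + n) * f (T^[n] (z y))‖ +
            K * (2 * h * h * C) :=
          add_le_add (momo_consec b hb _ (fun y => norm_nonneg _) K) le_rfl
      _ ≤ ε / 4 * h * b K + K * (2 * h * h * C) := add_le_add h1 le_rfl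
  have h3 : (G : ℝ) * K ≤ b K := by exact_mod_cast hK0 K hK1
  have h4 : (K : ℝ) * (2 * h * h * C) ≤ ε / 4 * h * b K := by
    have h5 : 8 * h * C ≤ ε * G := by
      have h6 : 8 * h * C / ε ≤ G := by linarith
      rw [div_le_iff₀ hε] at h6
      linarith
    have hK' : (0:ℝ) ≤ K := Nat.cast_nonneg K
    calc (K : ℝ) * (2 * h * h * C) = h / 4 * (K * (8 * h * C)) := by ring
      _ ≤ h / 4 * (K * (ε * G)) := by gcongr
      _ = ε / 4 * h * (G * K) := by ring
      _ ≤ ε / 4 * h * b K := by gcongr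
  rw [Real.dist_eq, sub_zero, abs_of_nonneg (by positivity)]
  have h5 : (h : ℝ) * ∑ k ∈ range K,
      ‖∑ n ∈ Ico (b k) (b (k + 1)), f (T^[n - b k] (x k)) * mc n‖ ≤ h * (ε / 2 * b K) := by
    linarith
  have h6 := le_of_mul_le_mul_left h5 hhpos
  calc (1 / (b K : ℝ)) * ∑ k ∈ range K,
      ‖∑ n ∈ Ico (b k) (b (k + 1)), f (T^[n - b k] (x k)) * mc n‖
      ≤ (1 / (b K : ℝ)) * (ε / 2 * b K) := by gcongr
    _ = ε / 2 := by field_simp
    _ < ε := by linarith

end Pool.Agent.Lib.MP_3e612f_nt.LOD
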