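import Pool.Agent.Lib.MP_3e612f_nt.LO.D.Kat
import Pool.Agent.Lib.MP_3e612f_nt.EM.Dich

/-!
The step of the induction for the local theorem.

PROOF of `lstep`. `lkat` gives a finite set `P` of primes and `δ`. For every pair `p < r` of `P` the dichotomy
`dichT`. The `x` for which the first alternative holds for all pairs: `lkat` (the first alternative holds
against all functions of the class, in particular against all `F y` and `conj (F y)`). The other `x`: `F x` is a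
combination of boundedly many functions of the smaller class (`lstep_bad`).
-/

set_option autoImplicit false

namespace Pool.Agent.Lib.MP_3e612f_nt.LOD

open Finset
open Pool.Agent.Lib.MP_3e612f_nt.PI (ee mc)
open Pool.Agent.Lib.MP_3e612f_nt.EM

section
variable {q d m' T M B L : ℕ} [NeZero M]

theorem clsK_norm {F : ℕ → ℂ} (hF : ClsK q d m' T M B L F) (n : ℕ) : ‖F n‖ ≤ 1 := by
  obtain ⟨I, β, t, g, -, hβ, -, -, -, -, hFe⟩ := hF
  rw [hFe n, norm_mul, PI.Kat_norm_ee, mul_one]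
  exact hβ n

theorem clsK_zero : ClsK q d m' T M B L (fun _ => 0) := by
  refine ⟨∅, fun _ => 0, fun _ => 0, fun _ => 0, ?_, ?_, ?_, ?_, ?_, ?_, ?_⟩
  · rw [card_empty]
    exact Nat.zero_le _
  · intro n
    rw [norm_zero]
    exact zero_le_one
  · intro n n' _
    rfl
  · intro S
    rw [smul_zero]
  · intro S _
    rfl
  · refine ⟨fun _ => 0, fun _ _ => rfl, fun n => ?_⟩
    unfold FP
    rw [Finset.sum_const_zero]
  · intro n
    rw [zero_mul]

theorem clsK_conj {F : ℕ → ℂ} (hF : ClsK q d m' T M B L F) :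
    ClsK q d m' T M B L (fun n => (starRingEnd ℂ) (F n)) := by
  obtain ⟨I, β, t, g, hI, hβ, hdep, ht1, ht2, ⟨u, hu, hg⟩, hFe⟩ := hF
  refine ⟨I, fun n => (starRingEnd ℂ) (β n), fun S => - t S, fun n => - g n, hI, ?_, ?_, ?_, ?_,
    ?_, ?_⟩
  · intro n
    rw [RCLike.norm_conj]
    exact hβ n
  · intro n n' h
    simp only
    rw [hdep n n' h]
  · intro S
    simp only
    rw [smul_neg, ht1 S, neg_zero]
  · intro S hS
    simp only
    rw [ht2 S hS, neg_zero]
  · refine ⟨fun S => - u S, fun S hS => ?_, fun n => ?_⟩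
    · simp only
      rw [hu S hS, neg_zero]
    · simp only
      rw [hg n]
      unfold FP
      rw [Finset.sum_neg_distrib]
  · intro n
    simp only
    rw [hFe n, map_mul, ← PI.Kat_ee_neg]
    congr 2
    unfold FP
    rw [Finset.sum_neg_distrib, neg_add]

end

/-- small pair correlations with all functions of the class -/
def Gd (q d m' T M B L : ℕ) [NeZero M] (p r h : ℕ) (δ : ℝ) (F : ℕ → ℂ) : Prop :=
  ∀ F' : ℕ → ℂ, ClsK q d m' T M B L F' → ∀ s s' : ℕ, ∀ N' ≤ h,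
    ‖∑ n ∈ Icc 1 N', F (p * n + s) * F' (r * n + s')‖ ≤ δ * h

/-- finite combinations with a fixed number of terms -/
theorem step_pad {q d m1 T M B L : ℕ} [NeZero M] {C : ℕ} {F : ℕ → ℂ} {ι : Type} [Fintype ι]
    (hC : Fintype.card ι ≤ C) (a : ι → ℂ) (F1 : ι → ℕ → ℂ) (ha : ∀ i, ‖a i‖ ≤ 1)
    (h1 : ∀ i, ClsK q d m1 T M B L (F1 i)) (hF : ∀ n, F n = ∑ i, a i * F1 i n) :
    ∃ (a' : Fin C → ℂ) (F1' : Fin C → ℕ → ℂ), (∀ i, ‖a' i‖ ≤ 1) ∧
      (∀ i, ClsK q d m1 T M B L (F1' i)) ∧ ∀ n, F n = ∑ i, a' i * F1' i n := by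
  obtain ⟨k, rfl⟩ := Nat.exists_eq_add_of_le hC
  let e := Fintype.equivFin ι
  refine ⟨Fin.append (fun i => a (e.symm i)) fun _ : Fin k => 0,
    Fin.append (fun i => F1 (e.symm i)) fun _ : Fin k => fun _ => 0, ?_, ?_, ?_⟩
  · intro i
    refine Fin.addCases (fun i => ?_) (fun i => ?_) i
    · rw [Fin.append_left]
      exact ha _
    · rw [Fin.append_right, norm_zero]
      exact zero_le_one
  · intro i
    refine Fin.addCases (fun i => ?_) (fun i => ?_) i
    · rw [Fin.append_left]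
      exact h1 _
    · rw [Fin.append_right]
      exact clsK_zero
  · intro n
    rw [Fin.sum_univ_add]
    simp only [Fin.append_left, Fin.append_right, mul_zero, Finset.sum_const_zero, add_zero]
    rw [hF n]
    exact (Equiv.sum_comp e.symm fun i => a i * F1 i n).symm

open Classical in
/-- the structured functions -/
theorem lstep_bad {q d : ℕ} (hq : 2 ≤ q) (hd : 1 ≤ d) {ℓ m1 M T : ℕ} (B w0 : ℕ) [NeZero M]
    (hℓ : ℓ.Prime) (hM : ℓ * m1 ∣ M) (hT : 0 < T) {p r : ℕ} (hp : p.Prime) (hr : r.Prime)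
    (hpr : p ≠ r) (hpq : p.Coprime q) (hrq : r.Coprime q) (hpT : p.Coprime T) {δ : ℝ}
    (hδ : 0 < δ) (h : LOR q d m1) {ε : ℝ} (hε : 0 < ε) : ∃ h0 : ℕ, ∀ h ≥ h0, ∃ X0 : ℕ,
    ∀ X ≥ X0, ∀ K1 L : ℕ, h ≤ q ^ K1 → q ^ K1 ≤ q * h → L ≤ K1 + w0 →
      ∀ (s : ℕ → ℕ) (F : ℕ → ℕ → ℂ), (∀ x, ClsK q d (ℓ * m1) T M B L (F x)) →
        ∑ x ∈ (range X).filter (fun x => ¬ Gd q d (ℓ * m1) T M B L p r h δ (F x)),
          ‖∑ n ∈ range h, mc (x + n) * F x (n + s x)‖ ≤ ε * h * X := by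
  obtain ⟨C, T2, M2, B2, N0, _, hT2, hm1, hD⟩ := dichT hq hd B w0 hℓ hM hT hp hr hpr hpq hrq hpT hδ
  have hC0 : (0 : ℝ) < (C : ℝ) + 1 := by positivity
  obtain ⟨h1, hh1⟩ := h T2 M2 B2 w0 hT2 hm1 (ε / ((C : ℝ) + 1)) (by positivity)
  refine ⟨max N0 h1, fun h hh => ?_⟩
  obtain ⟨X0, hX0⟩ := hh1 h ((le_max_right _ _).trans hh)
  refine ⟨X0, fun X hX K1 L hK1 hK2 hL s F hF => ?_⟩
  have hex : ∀ x, ∃ (a : Fin C → ℂ) (G : Fin C → ℕ → ℂ), (∀ i, ‖a i‖ ≤ 1) ∧
      (∀ i, ClsK q d m1 T2 M2 B2 L (G i)) ∧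
      (¬ Gd q d (ℓ * m1) T M B L p r h δ (F x) → ∀ n, F x n = ∑ i, a i * G i n) := by
    intro x
    by_cases hx : Gd q d (ℓ * m1) T M B L p r h δ (F x)
    · exact ⟨fun _ => 0, fun _ _ => 0, fun _ => by simp, fun _ => clsK_zero,
        fun hx' => absurd hx hx'⟩
    · rcases hD h ((le_max_left _ _).trans hh) K1 L hK1 hK2 hL (F x) (hF x) with h2 | h2
      · exact absurd h2 hx
      · obtain ⟨ι, _, a, F1, hC, ha, hF1, hFe⟩ := h2
        obtain ⟨a', F1', h3, h4, h5⟩ := step_pad hC a F1 ha hF1 hFe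
        exact ⟨a', F1', h3, h4, fun _ => h5⟩
  choose a G ha hG hFe using hex
  have hbd : ∀ x ∈ (range X).filter (fun x => ¬ Gd q d (ℓ * m1) T M B L p r h δ (F x)),
      ‖∑ n ∈ range h, mc (x + n) * F x (n + s x)‖ ≤
        ∑ i : Fin C, ‖∑ n ∈ range h, mc (x + n) * G x i (n + s x)‖ := by
    intro x hx
    have h2 := hFe x (mem_filter.1 hx).2
    have h3 : ∑ n ∈ range h, mc (x + n) * F x (n + s x) =
        ∑ i : Fin C, a x i * ∑ n ∈ range h, mc (x + n) * G x i (n + s x) := by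
      simp_rw [Finset.mul_sum]
      rw [Finset.sum_comm]
      refine Finset.sum_congr rfl fun n _ => ?_
      rw [h2, Finset.mul_sum]
      refine Finset.sum_congr rfl fun i _ => ?_
      ring
    rw [h3]
    refine (norm_sum_le _ _).trans (Finset.sum_le_sum fun i _ => ?_)
    rw [norm_mul]
    exact (mul_le_mul_of_nonneg_right (ha x i) (norm_nonneg _)).trans (le_of_eq (one_mul _))
  refine (Finset.sum_le_sum hbd).trans ?_
  refine (Finset.sum_le_sum_of_subset_of_nonneg (filter_subset _ _) fun x _ _ =>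
    Finset.sum_nonneg fun i _ => norm_nonneg _).trans ?_
  rw [Finset.sum_comm]
  have h4 : ∀ i : Fin C, ∑ x ∈ range X, ‖∑ n ∈ range h, mc (x + n) * G x i (n + s x)‖ ≤
      ε / ((C : ℝ) + 1) * h * X := fun i =>
    hX0 X hX K1 L hK1 hK2 hL s (fun x => G x i) fun x => hG x i
  refine (Finset.sum_le_sum fun i _ => h4 i).trans ?_
  rw [Finset.sum_const, card_univ, Fintype.card_fin, nsmul_eq_mul]
  have h5 : (C : ℝ) * (ε / ((C : ℝ) + 1)) ≤ ε := by
    rw [mul_div_assoc', div_le_iff₀ hC0]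
    nlinarith
  calc (C : ℝ) * (ε / ((C : ℝ) + 1) * h * X) = (C * (ε / ((C : ℝ) + 1))) * (h * X) := by ring
    _ ≤ ε * (h * X) := mul_le_mul_of_nonneg_right h5 (by positivity)
    _ = ε * h * X := by ring

/-- **the step of the induction** -/
theorem lstep {q d : ℕ} (hq : 2 ≤ q) (hd : 1 ≤ d) {ℓ m1 : ℕ} (hℓ : ℓ.Prime) (h : LOR q d m1) :
    LOR q d (ℓ * m1) := by
  classical
  intro T M B w0 _ hT hM ε hε
  obtain ⟨P, δ, h1, hP, hδ, hk⟩ := lkat (q * T) (show 0 < ε / 2 by positivity)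
  have hcop : ∀ p ∈ P, p.Coprime q ∧ p.Coprime T := by
    intro p hp
    obtain ⟨h2, h3⟩ := hP p hp
    have h4 : q ≤ q * T := Nat.le_mul_of_pos_right _ hT
    have h5 : T ≤ q * T := Nat.le_mul_of_pos_left _ (by omega)
    constructor
    · exact (Nat.Prime.coprime_iff_not_dvd h2).2 fun h6 =>
        absurd (Nat.le_of_dvd (by omega) h6) (by omega)
    · exact (Nat.Prime.coprime_iff_not_dvd h2).2 fun h6 =>
        absurd (Nat.le_of_dvd hT h6) (by omega)
  set c : ℝ := (P.card : ℝ) * P.card + 1 with hc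
  have hc0 : 0 < c := by positivity
  have hex : ∀ p r : ℕ, ∃ h0 : ℕ, p ∈ P → r ∈ P → p < r → ∀ h ≥ h0, ∃ X0 : ℕ,
    ∀ X ≥ X0, ∀ K1 L : ℕ, h ≤ q ^ K1 → q ^ K1 ≤ q * h → L ≤ K1 + w0 →
      ∀ (s : ℕ → ℕ) (F : ℕ → ℕ → ℂ), (∀ x, ClsK q d (ℓ * m1) T M B L (F x)) →
        ∑ x ∈ (range X).filter (fun x => ¬ Gd q d (ℓ * m1) T M B L p r h δ (F x)),
          ‖∑ n ∈ range h, mc (x + n) * F x (n + s x)‖ ≤ ε / (2 * c) * h * X := by
    intro p r
    by_cases hpr : p ∈ P ∧ r ∈ P ∧ p < r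
    · obtain ⟨h2, h3, h4⟩ := hpr
      obtain ⟨h0, hh0⟩ := lstep_bad hq hd B w0 hℓ hM hT (hP p h2).1 (hP r h3).1 (by omega)
        (hcop p h2).1 (hcop r h3).1 (hcop p h2).2 hδ h (show 0 < ε / (2 * c) by positivity)
      refine ⟨h0, fun _ _ _ h hh => ?_⟩
      obtain ⟨X0, hX0⟩ := hh0 h hh
      refine ⟨X0, fun X hX K1 L hK1 hK2 hL s F hF => ?_⟩
      exact hX0 X hX K1 L hK1 hK2 hL s F hF
    · exact ⟨0, fun a b c => absurd ⟨a, b, c⟩ hpr⟩
  choose h2 hh2 using hex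
  refine ⟨max h1 (P.sup fun p => P.sup fun r => h2 p r), fun h hh => ?_⟩
  have hle : ∀ p ∈ P, ∀ r ∈ P, h2 p r ≤ h := fun p hp r hr =>
    (Finset.le_sup (f := fun r => h2 p r) hr).trans
      ((Finset.le_sup (f := fun p => P.sup fun r => h2 p r) hp).trans ((le_max_right _ _).trans hh))
  obtain ⟨X1, hX1⟩ := hk h ((le_max_left _ _).trans hh)
  have hex2 : ∀ p r : ℕ, ∃ X0 : ℕ, p ∈ P → r ∈ P → p < r → ∀ X ≥ X0, ∀ K1 L : ℕ, h ≤ q ^ K1 →
      q ^ K1 ≤ q * h → L ≤ K1 + w0 →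
      ∀ (s : ℕ → ℕ) (F : ℕ → ℕ → ℂ), (∀ x, ClsK q d (ℓ * m1) T M B L (F x)) →
        ∑ x ∈ (range X).filter (fun x => ¬ Gd q d (ℓ * m1) T M B L p r h δ (F x)),
          ‖∑ n ∈ range h, mc (x + n) * F x (n + s x)‖ ≤ ε / (2 * c) * h * X := by
    intro p r
    by_cases hpr : p ∈ P ∧ r ∈ P ∧ p < r
    · obtain ⟨h3, h4, h5⟩ := hpr
      obtain ⟨X0, hX0⟩ := hh2 p r h3 h4 h5 h (hle p h3 r h4)
      exact ⟨X0, fun _ _ _ => hX0⟩
    · exact ⟨0, fun a b c => absurd ⟨a, b, c⟩ hpr⟩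
  choose X2 hX2 using hex2
  refine ⟨max X1 (P.sup fun p => P.sup fun r => X2 p r), fun X hX K1 L hK1 hK2 hL s F hF => ?_⟩
  have hXle : ∀ p ∈ P, ∀ r ∈ P, X2 p r ≤ X := fun p hp r hr =>
    (Finset.le_sup (f := fun r => X2 p r) hr).trans
      ((Finset.le_sup (f := fun p => P.sup fun r => X2 p r) hp).trans ((le_max_right _ _).trans hX))
  -- the good indices
  let good : ℕ → Prop := fun x => ∀ p ∈ P, ∀ r ∈ P, p < r →
    Gd q d (ℓ * m1) T M B L p r h δ (F x)
  set Ft : ℕ → ℕ → ℂ := fun x => if good x then F x else fun _ => 0 with hFt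
  have hFtc : ∀ x, ClsK q d (ℓ * m1) T M B L (Ft x) := by
    intro x
    rw [hFt]
    simp only
    split_ifs
    · exact hF x
    · exact clsK_zero
  have hgood := hX1 X ((le_max_left _ _).trans hX) s Ft (fun x n => clsK_norm (hFtc x) n)
    (by
      intro p hp r hr hpr x y s1 s2 N' hN'
      by_cases hx : good x
      · have e1 : Ft x = F x := by
          rw [hFt]
          simp only
          rw [if_pos hx]
        rw [e1]
        exact ⟨hx p hp r hr hpr _ (hFtc y) s1 s2 N' hN',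
          hx p hp r hr hpr _ (clsK_conj (hFtc y)) s1 s2 N' hN'⟩
      · have e1 : Ft x = fun _ => 0 := by
          rw [hFt]
          simp only
          rw [if_neg hx]
        rw [e1]
        simp only [zero_mul, Finset.sum_const_zero, norm_zero]
        exact ⟨by positivity, by positivity⟩)
  set S : ℕ → ℝ := fun x => ‖∑ n ∈ range h, mc (x + n) * F x (n + s x)‖ with hS
  have hS0 : ∀ x, 0 ≤ S x := fun x => norm_nonneg _
  have hbad : ∀ p ∈ P, ∀ r ∈ P, ∑ x ∈ range X,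
      (if p < r ∧ ¬ Gd q d (ℓ * m1) T M B L p r h δ (F x) then S x else 0) ≤
        ε / (2 * c) * h * X := by
    intro p hp r hr
    by_cases hpr : p < r
    · have h3 := hX2 p r hp hr hpr X (hXle p hp r hr) K1 L hK1 hK2 hL s F hF
      rw [Finset.sum_filter] at h3
      refine le_trans (le_of_eq ?_) h3
      refine Finset.sum_congr rfl fun x _ => ?_
      by_cases h4 : Gd q d (ℓ * m1) T M B L p r h δ (F x)
      · rw [if_neg (fun h5 => h5.2 h4), if_neg (not_not.2 h4)]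
      · rw [if_pos ⟨hpr, h4⟩, if_pos h4]
    · rw [Finset.sum_eq_zero]
      · positivity
      · intro x _
        rw [if_neg (fun h5 => hpr h5.1)]
  have hpt : ∀ x, S x ≤ ‖∑ n ∈ range h, mc (x + n) * Ft x (n + s x)‖ +
      ∑ p ∈ P, ∑ r ∈ P, if p < r ∧ ¬ Gd q d (ℓ * m1) T M B L p r h δ (F x) then S x else 0 := by
    intro x
    have hnn : ∀ p ∈ P, 0 ≤ ∑ r ∈ P,
        (if p < r ∧ ¬ Gd q d (ℓ * m1) T M B L p r h δ (F x) then S x else 0) := fun p _ =>
      Finset.sum_nonneg fun r _ => by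
        split_ifs
        · exact hS0 x
        · exact le_rfl
    by_cases hx : good x
    · have e1 : Ft x = F x := by
        rw [hFt]
        simp only
        rw [if_pos hx]
      rw [e1]
      have h3 := Finset.sum_nonneg hnn
      show S x ≤ S x + _
      linarith
    · have hx' : ∃ p ∈ P, ∃ r ∈ P, p < r ∧ ¬ Gd q d (ℓ * m1) T M B L p r h δ (F x) := by
        by_contra hcon
        apply hx
        intro p hp r hr hpr
        by_contra h3
        exact hcon ⟨p, hp, r, hr, hpr, h3⟩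
      obtain ⟨p, hp, r, hr, hpr⟩ := hx'
      have h3 := Finset.single_le_sum hnn hp
      have h4 := Finset.single_le_sum (f := fun r =>
        (if p < r ∧ ¬ Gd q d (ℓ * m1) T M B L p r h δ (F x) then S x else 0)) (fun r _ => by
          show 0 ≤ (if p < r ∧ ¬ Gd q d (ℓ * m1) T M B L p r h δ (F x) then S x else 0)
          split_ifs
          · exact hS0 x
          · exact le_rfl) hr
      rw [if_pos hpr] at h4
      have h5 := norm_nonneg (∑ n ∈ range h, mc (x + n) * Ft x (n + s x))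
      linarith
  have hsum := Finset.sum_le_sum fun x (_ : x ∈ range X) => hpt x
  rw [Finset.sum_add_distrib] at hsum
  have h3 : ∑ x ∈ range X, ∑ p ∈ P, ∑ r ∈ P,
      (if p < r ∧ ¬ Gd q d (ℓ * m1) T M B L p r h δ (F x) then S x else 0) ≤
        ε / 2 * h * X := by
    rw [Finset.sum_comm]
    have h4 : ∀ p ∈ P, ∑ x ∈ range X, ∑ r ∈ P,
        (if p < r ∧ ¬ Gd q d (ℓ * m1) T M B L p r h δ (F x) then S x else 0) ≤
          P.card * (ε / (2 * c) * h * X) := by
      intro p hp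
      rw [Finset.sum_comm]
      refine (Finset.sum_le_card_nsmul _ _ _ fun r hr => hbad p hp r hr).trans ?_
      rw [nsmul_eq_mul]
    refine (Finset.sum_le_card_nsmul _ _ _ h4).trans ?_
    rw [nsmul_eq_mul]
    have h5 : (P.card : ℝ) * P.card * (ε / (2 * c)) ≤ ε / 2 := by
      rw [mul_div_assoc', div_le_div_iff₀ (by positivity) (by norm_num)]
      nlinarith
    calc (P.card : ℝ) * (P.card * (ε / (2 * c) * h * X)) =
        (P.card * P.card * (ε / (2 * c))) * (h * X) := by ring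
      _ ≤ ε / 2 * (h * X) := mul_le_mul_of_nonneg_right h5 (by positivity)
      _ = _ := by ring
  calc ∑ x ∈ range X, S x ≤ ε / 2 * h * X + ε / 2 * h * X := hsum.trans (add_le_add hgood h3)
    _ = ε * h * X := by ring

end Pool.Agent.Lib.MP_3e612f_nt.LOD
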