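import Pool.Agent.Lib.MP_3e612f_nt.LO.D.Step
import Pool.Agent.Lib.MP_3e612f_nt.LO.D.Base
import Pool.Agent.Lib.MP_3e612f_nt.EM.GlobA

/-!
Truncation, and the induction for the local theorem.
-/

set_option autoImplicit false

namespace Pool.Agent.Lib.MP_3e612f_nt.LOD

open Finset
open Pool.Agent.Lib.MP_3e612f_nt.PI (ee mc)
open Pool.Agent.Lib.MP_3e612f_nt.EM

/-- truncation of a function of the class -/
theorem cls_trunc {q d T M B L K1 N : ℕ} [NeZero M] (hq : 2 ≤ q) (hT : 0 < T)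
    (hNK : N ≤ q ^ K1) {F : ℕ → ℂ} (hF : Cls q d T M B L F) (s : ℕ) :
    ∃ F' : ℕ → ℂ, ClsK q d M T M B (K1 + 1) F' ∧ ∀ n ≤ N, F (n + s) = F' (n + s) := by
  obtain ⟨I, β, f, hI, hβ, hdep, hf, hFf⟩ := hF
  have hm : 2 ≤ q * T := le_trans hq (Nat.le_mul_of_pos_right q hT)
  obtain ⟨f', ⟨t0, ht0, hft⟩, hff⟩ := truncT (K1 := K1) hq hm s N hNK hf
  refine ⟨fun n => β n * ee (f' n), ?_, fun n hn => by
    show F (n + s) = β (n + s) * ee (f' (n + s))
    rw [hFf, hff n hn]⟩
  refine ⟨I, β, fun S => if S.card = d then t0 S else 0,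
    FP q (q * T) (K1 + 1) (fun S => if S.card = d then 0 else t0 S), hI, hβ, hdep, ?_, ?_, ?_, ?_⟩
  · intro S
    rw [nsmul_eq_mul, ZMod.natCast_self, zero_mul]
  · intro S hS
    exact if_neg hS
  · refine ⟨_, ?_, fun n => rfl⟩
    intro S hS
    by_cases h2 : S.card = d
    · exact if_pos h2
    · simp only [if_neg h2]
      exact ht0 S (by omega)
  · intro n
    simp only []
    rw [hft n, ← FP_add]
    congr 3
    funext S
    by_cases h2 : S.card = d
    · simp only [if_pos h2, add_zero]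
    · simp only [if_neg h2, zero_add]

theorem tr_clog {q N : ℕ} (hq : 2 ≤ q) (hN : 1 ≤ N) :
    N ≤ q ^ Nat.clog q N ∧ q ^ Nat.clog q N ≤ q * N := by
  refine ⟨Nat.le_pow_clog (by omega) N, ?_⟩
  rcases Nat.eq_or_lt_of_le hN with h | h
  · subst h
    simp
    omega
  · have h2 : q ^ (Nat.clog q N).pred < N := Nat.pow_pred_clog_lt_self (by omega) h
    have h3 : 0 < Nat.clog q N := Nat.clog_pos (by omega) (by omega)
    have h4 : q ^ Nat.clog q N = q * q ^ (Nat.clog q N).pred := by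
      rw [← pow_succ']
      congr 1
      exact (Nat.succ_pred_eq_of_pos h3).symm
    rw [h4]
    exact Nat.mul_le_mul_left q h2.le

theorem ltrunc {q d : ℕ} (hq : 2 ≤ q) (h : ∀ M, M ≠ 0 → LOR q d M) : LPO q d := by
  intro T M B _ hT ε hε
  obtain ⟨h0, hh0⟩ := h M (NeZero.ne M) T M B 1 hT dvd_rfl ε hε
  refine ⟨max h0 1, fun h hh => ?_⟩
  obtain ⟨X0, hX0⟩ := hh0 h ((le_max_left _ _).trans hh)
  refine ⟨X0, fun X hX L s F hF => ?_⟩
  obtain ⟨h1, h2⟩ := tr_clog hq ((le_max_right _ _).trans hh)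
  choose F' hF' hFF using fun x => cls_trunc hq hT h1 (hF x) (s x)
  have h3 := hX0 X hX (Nat.clog q h) (Nat.clog q h + 1) h1 h2 le_rfl s F' hF'
  refine le_trans (le_of_eq ?_) h3
  refine Finset.sum_congr rfl fun x _ => ?_
  congr 1
  refine Finset.sum_congr rfl fun n hn => ?_
  rw [hFF x n (mem_range.1 hn).le]

theorem lone {q d : ℕ} (h : LPO q (d - 1)) : LOR q d 1 := by
  intro T M B w0 _ hT _ ε hε
  obtain ⟨h0, hh0⟩ := h T M B hT ε hε
  refine ⟨h0, fun h hh => ?_⟩
  obtain ⟨X0, hX0⟩ := hh0 h hh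
  refine ⟨X0, fun X hX K1 L _ _ _ s F hF => ?_⟩
  refine hX0 X hX (fun _ => L) s F fun x => ?_
  obtain ⟨I, β, t, g, hI, hβ, hdep, ht1, -, hg, hFe⟩ := hF x
  refine ⟨I, β, g, hI, hβ, hdep, hg, fun n => ?_⟩
  have h3 : FP q (q * T) L t n = 0 := by
    unfold FP
    refine Finset.sum_eq_zero fun S _ => ?_
    have := ht1 S
    rwa [one_smul] at this
  rw [hFe n, h3, zero_add]

theorem lall {q d : ℕ} (hq : 2 ≤ q) (hd : 1 ≤ d) (h : LPO q (d - 1)) (m' : ℕ) (hm' : m' ≠ 0) :
    LOR q d m' := by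
  induction m' using Nat.strong_induction_on with
  | _ m' ih =>
    by_cases h1 : m' = 1
    · rw [h1]
      exact lone h
    · have hp : m'.minFac.Prime := Nat.minFac_prime h1
      have h2 : m'.minFac * (m' / m'.minFac) = m' := Nat.mul_div_cancel' (Nat.minFac_dvd m')
      have h3 : m' / m'.minFac ≠ 0 := by
        intro h4
        rw [h4, mul_zero] at h2
        exact hm' h2.symm
      have h4 : m' / m'.minFac < m' :=
        Nat.div_lt_self (Nat.pos_of_ne_zero hm') hp.one_lt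
      rw [← h2]
      exact lstep hq hd hp (ih _ h4 h3)

/-- **the local theorem, from the theorem of Matomaki and Radziwill in residue classes** -/
theorem lpo_all {q : ℕ} (hq : 2 ≤ q) (hMR : MRp) (d : ℕ) : LPO q d := by
  induction d with
  | zero => exact lbase hq hMR
  | succ d ih => exact ltrunc hq fun M hM => lall hq (Nat.succ_pos d) ih M hM

end Pool.Agent.Lib.MP_3e612f_nt.LOD
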